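import Pool.Agent.Run7.h383.Fam

/-!
Exactness of the two step resolution in one direction.
-/

set_option linter.unusedSectionVars false
set_option linter.style.haveILetI false

namespace Run7.h383

open Finset Module Filter Topology

variable {K B ι : Type*} [Field K] [Ring B] [Algebra K B] [DecidableEq ι]
variable {D : Finset ι} {ℬ : (ι → ℕ) → Submodule K B}

/-- Data in a direction with two generators. -/
structure Axis (ℬ : (ι → ℕ) → Submodule K B) (i : ι) (x y p q : B) : Prop where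
  xm : x ∈ ℬ (e i)
  ym : y ∈ ℬ (e i)
  pm : p ∈ ℬ (e i)
  qm : q ∈ ℬ (e i)
  xne : x ≠ 0
  rel : x * p + y * q = 0
  sxy : ∀ v ∈ ℬ (e i), ∃ a b : K, v = a • x + b • y
  spq : ∀ v ∈ ℬ (e i), ∃ a b : K, v = a • p + b • q
  exact : ∀ α, ∀ b ∈ ℬ α, ∀ b' ∈ ℬ α, x * b + y * b' = 0 →
    ∃ c, b = p * c ∧ b' = q * c ∧ (c = 0 ∨ ∃ α', α = e i + α' ∧ c ∈ ℬ α')
  reg : ∀ v ∈ ℬ (e i), v ≠ 0 → ∀ α, ∀ c ∈ ℬ α, v * c = 0 → c = 0

/-- Data in a direction with one generator. -/
structure Axis1 (ℬ : (ι → ℕ) → Submodule K B) (i : ι) (x : B) : Prop where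
  xm : x ∈ ℬ (e i)
  xne : x ≠ 0
  sx : ∀ v ∈ ℬ (e i), ∃ a : K, v = a • x
  reg : ∀ v ∈ ℬ (e i), v ≠ 0 → ∀ α, ∀ c ∈ ℬ α, v * c = 0 → c = 0

theorem hd_erase {i : ι} (hi : i ∈ D) (α : ι → ℕ) :
    hd D α = (α i + 1) * ∏ k ∈ D.erase i, (α k + 1) :=
  (Finset.mul_prod_erase D (fun k => α k + 1) hi).symm

theorem hd_step {i : ι} (hi : i ∈ D) (α : ι → ℕ) :
    hd D (e i + α) = (α i + 2) * ∏ k ∈ D.erase i, (α k + 1) := by
  rw [hd_erase hi]
  congr 1
  · simp; ring
  · refine Finset.prod_congr rfl fun k hk => ?_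
    simp [e_other (Finset.ne_of_mem_erase hk)]

theorem hd_step1 {i : ι} (hi : i ∉ D) (α : ι → ℕ) : hd D (e i + α) = hd D α := by
  refine Finset.prod_congr rfl fun k hk => ?_
  have : k ≠ i := fun h => hi (h ▸ hk)
  simp [e_other this]

theorem mul_pair {V W : Submodule K B} {x y : B} (h : ∀ v ∈ V, ∃ a b : K, v = a • x + b • y)
    {z : B} (hz : z ∈ V * W) : ∃ w ∈ W, ∃ w' ∈ W, z = x * w + y * w' := by
  induction hz using Submodule.mul_induction_on' with
  | mem_mul_mem m hm n hn =>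
    obtain ⟨a, b, rfl⟩ := h m hm
    refine ⟨a • n, Submodule.smul_mem _ _ hn, b • n, Submodule.smul_mem _ _ hn, ?_⟩
    simp [add_mul]
  | add z _ z' _ hz hz' =>
    obtain ⟨w₁, h₁, w₁', h₁', rfl⟩ := hz
    obtain ⟨w₂, h₂, w₂', h₂', rfl⟩ := hz'
    refine ⟨w₁ + w₂, add_mem h₁ h₂, w₁' + w₂', add_mem h₁' h₂', ?_⟩
    simp only [mul_add]
    abel

theorem mul_single {V W : Submodule K B} {x : B} (h : ∀ v ∈ V, ∃ a : K, v = a • x)
    {z : B} (hz : z ∈ V * W) : ∃ w ∈ W, z = x * w := by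
  induction hz using Submodule.mul_induction_on' with
  | mem_mul_mem m hm n hn =>
    obtain ⟨a, rfl⟩ := h m hm
    refine ⟨a • n, Submodule.smul_mem _ _ hn, ?_⟩
    simp
  | add z _ z' _ hz hz' =>
    obtain ⟨w₁, h₁, rfl⟩ := hz
    obtain ⟨w₂, h₂, rfl⟩ := hz'
    exact ⟨w₁ + w₂, add_mem h₁ h₂, (mul_add _ _ _).symm⟩

/-- The multiplication map of a direction with two generators. -/
noncomputable def phi (h : Grd D ℬ) {i : ι} {x y : B} (hx : x ∈ ℬ (e i)) (hy : y ∈ ℬ (e i))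
    (α : ι → ℕ) : (ℬ α × ℬ α) →ₗ[K] ℬ (e i + α) :=
  LinearMap.codRestrict _
    ((LinearMap.mulLeft K x) ∘ₗ (Submodule.subtype _) ∘ₗ (LinearMap.fst K _ _) +
     (LinearMap.mulLeft K y) ∘ₗ (Submodule.subtype _) ∘ₗ (LinearMap.snd K (ℬ α) (ℬ α)))
    (fun b => add_mem (h.mul_mem hx b.1.2) (h.mul_mem hy b.2.2))

theorem phi_apply (h : Grd D ℬ) {i : ι} {x y : B} (hx : x ∈ ℬ (e i)) (hy : y ∈ ℬ (e i))
    (α : ι → ℕ) (b : ℬ α × ℬ α) : (phi h hx hy α b : B) = x * b.1 + y * b.2 := rfl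

theorem phi_ker (h : Grd D ℬ) {i : ι} (hi : i ∈ D) {x y : B} (hx : x ∈ ℬ (e i))
    (hy : y ∈ ℬ (e i)) (hxy : ∀ v ∈ ℬ (e i), ∃ a b : K, v = a • x + b • y) (α : ι → ℕ) :
    finrank K (LinearMap.ker (phi h hx hy α)) = α i * ∏ k ∈ D.erase i, (α k + 1) := by
  haveI := h.fin α
  haveI := h.fin (e i + α)
  have h1 := LinearMap.finrank_range_add_finrank_ker (phi h hx hy α)
  have hsurj : Function.Surjective (phi h hx hy α) := by
    rintro ⟨z, hz⟩
    have hz' := hz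
    rw [← h.mul] at hz'
    obtain ⟨w, hw, w', hw', rfl⟩ := mul_pair hxy hz'
    exact ⟨(⟨w, hw⟩, ⟨w', hw'⟩), Subtype.ext rfl⟩
  rw [LinearMap.range_eq_top.2 hsurj, finrank_top, Module.finrank_prod, h.rk, h.rk,
    hd_step hi, hd_erase hi] at h1
  have h2 : (α i + 1) * ∏ k ∈ D.erase i, (α k + 1) + (α i + 1) * ∏ k ∈ D.erase i, (α k + 1) =
    (α i + 2) * ∏ k ∈ D.erase i, (α k + 1) + α i * ∏ k ∈ D.erase i, (α k + 1) := by ring
  rw [h2] at h1
  exact Nat.add_left_cancel h1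

theorem exact_zero (h : Grd D ℬ) {i : ι} (hi : i ∈ D) {x y : B} (hx : x ∈ ℬ (e i))
    (hy : y ∈ ℬ (e i)) (hxy : ∀ v ∈ ℬ (e i), ∃ a b : K, v = a • x + b • y) {α : ι → ℕ}
    (hα : α i = 0) {b b' : B} (hb : b ∈ ℬ α) (hb' : b' ∈ ℬ α) (h0 : x * b + y * b' = 0) :
    b = 0 ∧ b' = 0 := by
  haveI := h.fin α
  have h1 := phi_ker h hi hx hy hxy α
  rw [hα, zero_mul] at h1
  have h2 := Submodule.finrank_eq_zero.1 h1
  have h3 : ((⟨b, hb⟩, ⟨b', hb'⟩) : ℬ α × ℬ α) ∈ LinearMap.ker (phi h hx hy α) :=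
    LinearMap.mem_ker.2 (Subtype.ext h0)
  rw [h2, Submodule.mem_bot] at h3
  have h4 := congrArg Prod.fst h3
  have h5 := congrArg Prod.snd h3
  exact ⟨congrArg Subtype.val h4, congrArg Subtype.val h5⟩

theorem exact_succ (h : Grd D ℬ) {i : ι} (hi : i ∈ D) {x y p q : B} (hx : x ∈ ℬ (e i))
    (hy : y ∈ ℬ (e i)) (hp : p ∈ ℬ (e i)) (hq : q ∈ ℬ (e i))
    (hxy : ∀ v ∈ ℬ (e i), ∃ a b : K, v = a • x + b • y) (hrel : x * p + y * q = 0)
    {α' : ι → ℕ} (hinj : ∀ c ∈ ℬ α', p * c = 0 → c = 0)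
    {b b' : B} (hb : b ∈ ℬ (e i + α')) (hb' : b' ∈ ℬ (e i + α')) (h0 : x * b + y * b' = 0) :
    ∃ c ∈ ℬ α', b = p * c ∧ b' = q * c := by
  haveI := h.fin α'
  haveI := h.fin (e i + α')
  have h1 := phi_ker h hi hx hy hxy (e i + α')
  let ψ : ℬ α' →ₗ[K] (ℬ (e i + α') × ℬ (e i + α')) :=
      (LinearMap.prod
        (LinearMap.codRestrict (ℬ (e i + α')) ((LinearMap.mulLeft K p) ∘ₗ (Submodule.subtype _))
          (fun c => h.mul_mem hp c.2))
        (LinearMap.codRestrict (ℬ (e i + α')) ((LinearMap.mulLeft K q) ∘ₗ (Submodule.subtype _))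
          (fun c => h.mul_mem hq c.2)))
  have hle : LinearMap.range ψ ≤ LinearMap.ker (phi h hx hy (e i + α')) := by
    rintro _ ⟨c, rfl⟩
    refine LinearMap.mem_ker.2 (Subtype.ext ?_)
    show x * (p * (c : B)) + y * (q * (c : B)) = 0
    rw [← mul_assoc, ← mul_assoc, ← add_mul, hrel, zero_mul]
  have hψ : Function.Injective ψ := by
    rw [injective_iff_map_eq_zero]
    intro c hc
    have h2 := congrArg Prod.fst hc
    have h3 : p * (c : B) = 0 := congrArg Subtype.val h2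
    exact Subtype.ext (hinj c c.2 h3)
  have hfr : finrank K (LinearMap.range ψ) =
      finrank K (LinearMap.ker (phi h hx hy (e i + α'))) := by
    rw [LinearMap.finrank_range_of_inj hψ, h1, h.rk, hd_erase hi]
    congr 1
    · simp; ring
    · refine Finset.prod_congr rfl fun k hk => ?_
      simp [e_other (Finset.ne_of_mem_erase hk)]
  have hrange := Submodule.eq_of_le_of_finrank_eq hle hfr
  have h3 : ((⟨b, hb⟩, ⟨b', hb'⟩) : ℬ (e i + α') × ℬ (e i + α')) ∈
      LinearMap.ker (phi h hx hy (e i + α')) := LinearMap.mem_ker.2 (Subtype.ext h0)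
  rw [← hrange] at h3
  obtain ⟨c, hc⟩ := h3
  have h4 := congrArg Prod.fst hc
  have h5 := congrArg Prod.snd hc
  exact ⟨c, c.2, (congrArg Subtype.val h4).symm, (congrArg Subtype.val h5).symm⟩

theorem Grd.axis (h : Grd D ℬ) {i : ι} (hi : i ∈ D) : ∃ x y p q, Axis ℬ i x y p q := by
  have he : ∏ k ∈ D.erase i, ((e i : ι → ℕ) k + 1) = 1 := by
    refine Finset.prod_eq_one fun k hk => ?_
    simp [e_other (Finset.ne_of_mem_erase hk)]
  have h2 : finrank K (ℬ (e i)) = 2 := by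
    rw [h.rk, hd_erase hi, he, e_same]
  haveI := h.fin (e i)
  let b := finBasisOfFinrankEq K (ℬ (e i)) h2
  set x : B := (b 0 : B) with hxdef
  set y : B := (b 1 : B) with hydef
  have hx : x ∈ ℬ (e i) := (b 0).2
  have hy : y ∈ ℬ (e i) := (b 1).2
  have hind : ∀ k l : K, k • x + l • y = 0 → k = 0 ∧ l = 0 := by
    intro k l hkl
    have h3 : k • b 0 + l • b 1 = 0 := Subtype.ext hkl
    have h4 : LinearIndependent K ![b 0, b 1] := by
      have h5 := b.linearIndependent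
      convert h5 using 1
      funext j
      fin_cases j <;> rfl
    exact LinearIndependent.pair_iff.1 h4 k l h3
  have hxy : ∀ v ∈ ℬ (e i), ∃ a c : K, v = a • x + c • y := by
    intro v hv
    refine ⟨b.repr ⟨v, hv⟩ 0, b.repr ⟨v, hv⟩ 1, ?_⟩
    have h3 := b.sum_repr ⟨v, hv⟩
    rw [Fin.sum_univ_two] at h3
    exact (congrArg Subtype.val h3).symm
  have hx0 : x ≠ 0 := by
    intro h0
    have := (hind 1 0 (by simp [h0])).1
    exact one_ne_zero this
  -- the relation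
  have hker := phi_ker h hi hx hy hxy (e i)
  rw [he, e_same, one_mul] at hker
  have hne : LinearMap.ker (phi h hx hy (e i)) ≠ ⊥ := by
    intro h0
    rw [h0, finrank_bot] at hker
    exact zero_ne_one hker
  obtain ⟨⟨⟨p, hp⟩, ⟨q, hq⟩⟩, hmem, hpq⟩ := Submodule.exists_mem_ne_zero_of_ne_bot hne
  have hrel : x * p + y * q = 0 := congrArg Subtype.val (LinearMap.mem_ker.1 hmem)
  have hpq' : ¬ (p = 0 ∧ q = 0) := by
    rintro ⟨rfl, rfl⟩
    exact hpq rfl
  have hindpq : ∀ k l : K, k • p + l • q = 0 → k = 0 ∧ l = 0 := by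
    intro k l hkl
    by_cases hk : k = 0
    · subst hk
      refine ⟨rfl, ?_⟩
      by_contra hl
      have hq0 : q = 0 := by
        rw [zero_smul, zero_add] at hkl
        exact (smul_eq_zero.1 hkl).resolve_left hl
      have hxp : x * p = 0 := by simpa [hq0] using hrel
      rcases h.reg i hi x hx p hp hxp with h3 | h3
      · exact hx0 h3
      · exact hpq' ⟨h3, hq0⟩
    · exfalso
      have hp' : p = (-(k⁻¹ * l)) • q := by
        have h3 : k • p = -(l • q) := eq_neg_of_add_eq_zero_left hkl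
        calc p = k⁻¹ • (k • p) := by rw [smul_smul, inv_mul_cancel₀ hk, one_smul]
          _ = _ := by rw [h3, smul_neg, smul_smul, neg_smul]
      have h3 : ((-(k⁻¹ * l)) • x + y) * q = 0 := by
        rw [add_mul, smul_mul_assoc, ← mul_smul_comm, ← hp', hrel]
      have h4 : (-(k⁻¹ * l)) • x + y ∈ ℬ (e i) := add_mem (Submodule.smul_mem _ _ hx) hy
      rcases h.reg i hi _ h4 q hq h3 with h5 | h5
      · have := (hind (-(k⁻¹ * l)) 1 (by rw [one_smul]; exact h5)).2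
        exact one_ne_zero this
      · exact hpq' ⟨by rw [hp', h5, smul_zero], h5⟩
  have hp0 : p ≠ 0 := by
    intro h0
    have := (hindpq 1 0 (by simp [h0])).1
    exact one_ne_zero this
  have hspq : ∀ v ∈ ℬ (e i), ∃ a c : K, v = a • p + c • q := by
    intro v hv
    have h4 : LinearIndependent K ![(⟨p, hp⟩ : ℬ (e i)), ⟨q, hq⟩] := by
      refine LinearIndependent.pair_iff.2 fun s t hst => hindpq s t ?_
      exact congrArg Subtype.val hst
    have hsp := h4.span_eq_top_of_card_eq_finrank' (by rw [h2]; rfl)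
    have hv' : (⟨v, hv⟩ : ℬ (e i)) ∈ Submodule.span K (Set.range ![(⟨p, hp⟩ : ℬ (e i)), ⟨q, hq⟩]) := by
      rw [hsp]; trivial
    rw [Matrix.range_cons, Matrix.range_cons, Matrix.range_empty, Set.union_empty,
      Set.singleton_union, Submodule.mem_span_pair] at hv'
    obtain ⟨a, c, hac⟩ := hv'
    exact ⟨a, c, (congrArg Subtype.val hac).symm⟩
  -- regularity by induction
  have hZ : ∀ n : ℕ, ∀ v ∈ ℬ (e i), v ≠ 0 → ∀ α, α i = n → ∀ c ∈ ℬ α, v * c = 0 → c = 0 := by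
    intro n
    induction n with
    | zero =>
      intro v hv hv0 α hα c hc hvc
      obtain ⟨a, a', rfl⟩ := hxy v hv
      have h3 : x * (a • c) + y * (a' • c) = 0 := by
        rw [← hvc]; simp [add_mul]
      obtain ⟨h4, h5⟩ := exact_zero h hi hx hy hxy hα (Submodule.smul_mem _ _ hc)
        (Submodule.smul_mem _ _ hc) h3
      by_contra hc0
      have ha := (smul_eq_zero.1 h4).resolve_right hc0
      have ha' := (smul_eq_zero.1 h5).resolve_right hc0
      exact hv0 (by simp [ha, ha'])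
    | succ n ih =>
      intro v hv hv0 α hα c hc hvc
      obtain ⟨α', rfl⟩ := exists_shift (i := i) (β := α) (by omega)
      have hα' : α' i = n := by
        simp only [Pi.add_apply, e_same] at hα
        omega
      obtain ⟨a, a', rfl⟩ := hxy v hv
      have h3 : x * (a • c) + y * (a' • c) = 0 := by
        rw [← hvc]; simp [add_mul]
      obtain ⟨c', hc', h4, h5⟩ := exact_succ h hi hx hy hp hq hxy hrel
        (fun c hc => ih p hp hp0 α' hα' c hc) (Submodule.smul_mem _ _ hc)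
        (Submodule.smul_mem _ _ hc) h3
      have hne' : a' • p - a • q ≠ 0 := by
        intro h0
        have h6 := hindpq a' (-a) (by rw [neg_smul, ← sub_eq_add_neg]; exact h0)
        exact hv0 (by simp [h6.1, neg_eq_zero.1 h6.2])
      have h6 : (a' • p - a • q) * c' = 0 := by
        rw [sub_mul, smul_mul_assoc, smul_mul_assoc, ← h4, ← h5, smul_smul, smul_smul, mul_comm,
          sub_self]
      have h7 := ih _ (sub_mem (Submodule.smul_mem _ _ hp) (Submodule.smul_mem _ _ hq)) hne' α' hα'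
        c' hc' h6
      rw [h7, mul_zero] at h4 h5
      by_contra hc0
      have ha := (smul_eq_zero.1 h4).resolve_right hc0
      have ha' := (smul_eq_zero.1 h5).resolve_right hc0
      exact hv0 (by simp [ha, ha'])
  refine ⟨x, y, p, q, hx, hy, hp, hq, hx0, hrel, hxy, hspq, ?_, fun v hv hv0 α c hc hvc =>
    hZ (α i) v hv hv0 α rfl c hc hvc⟩
  intro α c hc c' hc' h0
  rcases Nat.eq_zero_or_pos (α i) with hα | hα
  · obtain ⟨h3, h4⟩ := exact_zero h hi hx hy hxy hα hc hc' h0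
    exact ⟨0, by rw [h3, mul_zero], by rw [h4, mul_zero], Or.inl rfl⟩
  · obtain ⟨α', rfl⟩ := exists_shift hα
    obtain ⟨d, hd, h3, h4⟩ := exact_succ h hi hx hy hp hq hxy hrel
      (fun c hc => hZ (α' i) p hp hp0 α' rfl c hc) hc hc' h0
    exact ⟨d, h3, h4, Or.inr ⟨α', rfl, hd⟩⟩

theorem Grd.axis1 (h : Grd D ℬ) {i : ι} (hi : i ∉ D) : ∃ x, Axis1 ℬ i x := by
  have h1 : finrank K (ℬ (e i)) = 1 := by
    rw [h.rk]
    have := hd_step1 hi (0 : ι → ℕ)
    rw [add_zero] at this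
    rw [this]
    simp [hd]
  obtain ⟨x, hx, hx0⟩ := h.ne_bot (e i)
  haveI := h.fin (e i)
  have hsx : ∀ v ∈ ℬ (e i), ∃ a : K, v = a • x := by
    intro v hv
    have h2 : (⟨x, hx⟩ : ℬ (e i)) ≠ 0 := fun h0 => hx0 (congrArg Subtype.val h0)
    obtain ⟨k, hk⟩ := (finrank_eq_one_iff_of_nonzero' _ h2).1 h1 ⟨v, hv⟩
    exact ⟨k, (congrArg Subtype.val hk).symm⟩
  have hreg : ∀ α, ∀ c ∈ ℬ α, x * c = 0 → c = 0 := by
    intro α c hc hxc
    haveI := h.fin α
    haveI := h.fin (e i + α)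
    let f : ℬ α →ₗ[K] ℬ (e i + α) := LinearMap.codRestrict _
      ((LinearMap.mulLeft K x) ∘ₗ (Submodule.subtype _)) (fun b => h.mul_mem hx b.2)
    have hsurj : Function.Surjective f := by
      rintro ⟨z, hz⟩
      have hz' := hz
      rw [← h.mul] at hz'
      obtain ⟨w, hw, rfl⟩ := mul_single hsx hz'
      exact ⟨⟨w, hw⟩, Subtype.ext rfl⟩
    have hfr : finrank K (ℬ α) = finrank K (ℬ (e i + α)) := by
      rw [h.rk, h.rk, hd_step1 hi]
    have hinj := (LinearMap.injective_iff_surjective_of_finrank_eq_finrank hfr).2 hsurj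
    have h3 : f ⟨c, hc⟩ = f 0 := by
      rw [map_zero]
      exact Subtype.ext hxc
    exact congrArg Subtype.val (hinj h3)
  refine ⟨x, hx, hx0, hsx, ?_⟩
  intro v hv hv0 α c hc hvc
  obtain ⟨a, rfl⟩ := hsx v hv
  have ha : a ≠ 0 := by rintro rfl; exact hv0 (zero_smul _ _)
  rw [smul_mul_assoc] at hvc
  exact hreg α c hc ((smul_eq_zero.1 hvc).resolve_left ha)

/-- Nonzero elements of degree `e i` are left regular. -/
theorem Grd.reg_left (h : Grd D ℬ) {i : ι} : ∀ v ∈ ℬ (e i), v ≠ 0 → ∀ α, ∀ c ∈ ℬ α,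
    v * c = 0 → c = 0 := by
  by_cases hi : i ∈ D
  · obtain ⟨x, y, p, q, hax⟩ := h.axis hi
    exact hax.reg
  · obtain ⟨x, hax⟩ := h.axis1 hi
    exact hax.reg

end Run7.h383
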