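import Mathlib

/-!
Degrees, families, closures for multigraded algebras with Hilbert series
a product of `(1-s)^{-1}` and `(1-s)^{-2}`.
-/

set_option linter.unusedSectionVars false
set_option linter.style.haveILetI false

namespace Run7.h383

open Finset Module Filter Topology

variable {K B ι : Type*} [Field K] [Ring B] [Algebra K B] [DecidableEq ι]

/-- `β` is supported in the finite set `T`. -/
def Sup (T : Finset ι) (β : ι → ℕ) : Prop := ∀ i, i ∉ T → β i = 0

/-- The unit degree in direction `i`. -/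
abbrev e (i : ι) : ι → ℕ := Pi.single i 1

/-- The value of the multigraded Hilbert function. -/
def hd (D : Finset ι) (α : ι → ℕ) : ℕ := ∏ i ∈ D, (α i + 1)

/-- Standing hypotheses on a family of homogeneous components. -/
structure Grd (D : Finset ι) (ℬ : (ι → ℕ) → Submodule K B) : Prop where
  one : (1 : B) ∈ ℬ 0
  mul : ∀ α β, ℬ α * ℬ β = ℬ (α + β)
  rk : ∀ α, finrank K (ℬ α) = hd D α
  reg : ∀ i ∈ D, ∀ v ∈ ℬ (e i), ∀ w ∈ ℬ (e i), v * w = 0 → v = 0 ∨ w = 0

theorem hd_pos (D : Finset ι) (α : ι → ℕ) : 0 < hd D α :=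
  Finset.prod_pos fun _ _ => Nat.succ_pos _

theorem Sup.add {T : Finset ι} {α β : ι → ℕ} (h : Sup T α) (h' : Sup T β) : Sup T (α + β) := by
  intro i hi
  simp [h i hi, h' i hi]

theorem Sup.zero (T : Finset ι) : Sup T (0 : ι → ℕ) := fun _ _ => rfl

theorem Sup.mono {T T' : Finset ι} (h : T ⊆ T') {α : ι → ℕ} (hα : Sup T α) : Sup T' α :=
  fun i hi => hα i fun hi' => hi (h hi')

theorem Sup.single {T : Finset ι} {i : ι} (h : i ∈ T) : Sup T (e i) := by
  intro j hj
  have : j ≠ i := fun h' => hj (h' ▸ h)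
  simp [e, this]

/-- The degree equal to `n` on `T` and `0` outside. -/
def ind (T : Finset ι) (n : ℕ) : ι → ℕ := fun i => if i ∈ T then n else 0

theorem sup_ind (T : Finset ι) (n : ℕ) : Sup T (ind T n) := by
  intro i hi
  simp [ind, hi]

/-- Generic rank of the row of `τ` over the directions in `T`. -/
def grk (D T : Finset ι) (τ : ι → ℕ) : ℕ := ∏ i ∈ D, (if i ∈ T then 1 else (τ i + 1))

theorem tendsto_factor (a b : ℕ) :
    Tendsto (fun n : ℕ => (((n + a - b : ℕ) : ℝ) + 1) / ((n : ℝ) + 1)) atTop (𝓝 1) := by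
  have h1 : Tendsto (fun n : ℕ => (1 : ℝ) + ((a : ℝ) - b) * (1 / ((n : ℝ) + 1))) atTop
      (𝓝 (1 + ((a : ℝ) - b) * 0)) :=
    tendsto_const_nhds.add (tendsto_const_nhds.mul tendsto_one_div_add_atTop_nhds_zero_nat)
  rw [mul_zero, add_zero] at h1
  refine h1.congr' ?_
  filter_upwards [eventually_ge_atTop b] with n hn
  have h2 : ((n + a - b : ℕ) : ℝ) = (n : ℝ) + a - b := by
    rw [Nat.cast_sub (by omega)]
    push_cast
    ring
  rw [h2]
  have h3 : (n : ℝ) + 1 ≠ 0 := by positivity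
  field_simp
  ring

theorem tendsto_ratio (D T : Finset ι) (τ σ : ι → ℕ) (hσ : Sup T σ) :
    Tendsto (fun n : ℕ => (hd D (ind T n + τ - σ) : ℝ) / (hd D (ind T n) : ℝ)) atTop
      (𝓝 (grk D T τ : ℝ)) := by
  have h : ∀ n : ℕ, (hd D (ind T n + τ - σ) : ℝ) / (hd D (ind T n) : ℝ) =
      ∏ i ∈ D, ((((ind T n i + τ i - σ i : ℕ) : ℝ) + 1) / ((ind T n i : ℝ) + 1)) := by
    intro n
    rw [Finset.prod_div_distrib]
    simp [hd]
  simp_rw [h]
  have h4 : (grk D T τ : ℝ) = ∏ i ∈ D, (if i ∈ T then (1 : ℝ) else ((τ i : ℝ) + 1)) := by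
    simp only [grk, Nat.cast_prod]
    refine Finset.prod_congr rfl fun i _ => ?_
    split_ifs <;> simp
  rw [h4]
  refine tendsto_finsetProd D fun i _ => ?_
  by_cases hi : i ∈ T
  · simp only [ind, hi, if_true]
    exact tendsto_factor _ _
  · simp only [ind, hi, if_false, hσ i hi]
    simp

theorem eventually_dim {L M : Type*} [Fintype L] [Fintype M] (D T : Finset ι)
    (τ σ : L → ι → ℕ) (τ' σ' : M → ι → ℕ) (hσ : ∀ l, Sup T (σ l)) (hσ' : ∀ m, Sup T (σ' m))
    (h : ∑ m, grk D T (τ' m) < ∑ l, grk D T (τ l)) :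
    ∀ᶠ n in atTop, ∑ m, hd D (ind T n + τ' m - σ' m) < ∑ l, hd D (ind T n + τ l - σ l) := by
  have h1 : Tendsto (fun n : ℕ => ∑ m, (hd D (ind T n + τ' m - σ' m) : ℝ) / (hd D (ind T n) : ℝ))
      atTop (𝓝 (∑ m, (grk D T (τ' m) : ℝ))) :=
    tendsto_finsetSum _ fun m _ => tendsto_ratio D T _ _ (hσ' m)
  have h2 : Tendsto (fun n : ℕ => ∑ l, (hd D (ind T n + τ l - σ l) : ℝ) / (hd D (ind T n) : ℝ))
      atTop (𝓝 (∑ l, (grk D T (τ l) : ℝ))) :=
    tendsto_finsetSum _ fun l _ => tendsto_ratio D T _ _ (hσ l)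
  have h3 : (∑ m, (grk D T (τ' m) : ℝ)) < ∑ l, (grk D T (τ l) : ℝ) := by exact_mod_cast h
  filter_upwards [h1.eventually_lt h2 h3] with n hn
  rw [← Finset.sum_div, ← Finset.sum_div,
    div_lt_div_iff_of_pos_right (by exact_mod_cast hd_pos D (ind T n))] at hn
  exact_mod_cast hn

end Run7.h383
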