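import Pool.Agent.Run7.h383.Lists

/-!
The freeness lemma in one direction.
-/

set_option linter.unusedSectionVars false
set_option linter.style.haveILetI false

namespace Run7.h383

open Finset Module Filter Topology

variable {K B ι : Type*} [Field K] [Ring B] [Algebra K B] [DecidableEq ι]
variable {D : Finset ι} {ℬ : (ι → ℕ) → Submodule K B}
variable {S : Finset ι} {i : ι} {N M : (ι → ℕ) → Submodule K B}

/-- The part of `N` generated, up to closure, in degrees less than `j` in direction `i`. -/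
def nlt (ℬ : (ι → ℕ) → Submodule K B) (S : Finset ι) (i : ι)
    (N : (ι → ℕ) → Submodule K B) (j : ℕ) : (ι → ℕ) → Submodule K B :=
  cl ℬ S (gen ℬ (insert i S) (fun δ => δ i < j) N)

theorem nlt_isFam (h : Grd D ℬ) (hS : Dom ℬ S) (hN : ∀ α, N α ≤ ℬ α) (j : ℕ) :
    IsFam ℬ (insert i S) (nlt ℬ S i N j) :=
  cl_isFam h hS (Finset.subset_insert _ _) (gen_isFam h hN)

theorem gen_isFam' (h : Grd D ℬ) (hN : ∀ α, N α ≤ ℬ α) (j : ℕ) :
    IsFam ℬ S (gen ℬ (insert i S) (fun δ => δ i < j) N) :=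
  (gen_isFam h hN).mono (Finset.subset_insert _ _)

theorem nlt_isCl (h : Grd D ℬ) (hS : Dom ℬ S) (hN : ∀ α, N α ≤ ℬ α) (j : ℕ) :
    IsCl ℬ S (nlt ℬ S i N j) :=
  cl_isCl h hS (gen_isFam' h hN j)

theorem nlt_le (h : Grd D ℬ) (hS : Dom ℬ S) (hN : IsFam ℬ (insert i S) N) (hcl : IsCl ℬ S N)
    (j : ℕ) (α : ι → ℕ) : nlt ℬ S i N j α ≤ N α :=
  cl_le h hS (gen_isFam' h hN.le j) hcl (fun _ _ => gen_le hN (fun _ _ _ => le_rfl))

theorem le_nlt (h : Grd D ℬ) (hN : ∀ α, N α ≤ ℬ α) {j : ℕ} {α : ι → ℕ} (hα : α i < j) :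
    N α ≤ nlt ℬ S i N j α :=
  (le_gen (P := fun δ => δ i < j) h hα).trans (le_cl h (gen_isFam' h hN j) α)

theorem cl_mono {α : ι → ℕ} (hle : ∀ α, N α ≤ M α) :
    cl ℬ S N α ≤ cl ℬ S M α := by
  refine Submodule.span_mono ?_
  rintro c ⟨hc, σ, hσ, s, hs, hne, hsc⟩
  exact ⟨hc, σ, hσ, s, hs, hne, hle _ hsc⟩

theorem nlt_mono {j k : ℕ} (hjk : j ≤ k) (α : ι → ℕ) :
    nlt ℬ S i N j α ≤ nlt ℬ S i N k α :=
  cl_mono (fun α => gen_mono (fun _ hδ => lt_of_lt_of_le hδ hjk) α)

theorem nlt_step (h : Grd D ℬ) (hS : Dom ℬ S) (hN : ∀ α, N α ≤ ℬ α) {j : ℕ} {α : ι → ℕ}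
    (hα : j ≤ (e i + α) i) {c : B} (hc : c ∈ nlt ℬ S i N j (e i + α)) :
    ∃ σ, Sup S σ ∧ ∃ s ∈ ℬ σ, s ≠ 0 ∧ s * c ∈ ℬ (e i) * nlt ℬ S i N j (σ + α) := by
  obtain ⟨_, σ, hσ, s, hs, hne, hsc⟩ := (mem_cl h hS (gen_isFam' h hN j)).1 hc
  refine ⟨σ, hσ, s, hs, hne, ?_⟩
  rw [add_left_comm] at hsc
  have h1 : j ≤ (e i + (σ + α)) i := by
    simp only [Pi.add_apply] at hα ⊢
    omega
  have h2 := gen_step h h1 hsc
  exact mul_le_mul_right (le_cl h (gen_isFam' h hN j) (σ + α)) _ h2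

theorem rep (h : Grd D ℬ) (hS : Dom ℬ S) (hN : IsFam ℬ (insert i S) N)
    {ρ : ι → ℕ} {m : ℕ} {g : Fin m → B} {δ : Fin m → ι → ℕ}
    (hg : MaxList ℬ S N (nlt ℬ S i N (ρ i)) ρ g δ) {ε : ι → ℕ}
    (hrow : ∀ j, j ∉ insert i S → ε j = ρ j) {c : B} (hc : c ∈ nlt ℬ S i N (ρ i + 1) ε) :
    ∃ σ, Sup S σ ∧ ∃ s ∈ ℬ σ, s ≠ 0 ∧
      s * c ∈ lin ℬ (insert i S) g δ (σ + ε) ⊔ nlt ℬ S i N (ρ i) (σ + ε) := by
  have hST : S ⊆ insert i S := Finset.subset_insert _ _
  set E : (ι → ℕ) → Submodule K B := fun α =>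
    lin ℬ (insert i S) g δ α ⊔ nlt ℬ S i N (ρ i) α with hE
  have hEfam : IsFam ℬ (insert i S) E :=
    sup_isFam (lin_isFam h (fun l => hN.le _ (hg.mem l))) (nlt_isFam h hS hN.le _)
  have hF := cl_isFam h hS hST hEfam
  have hFcl := cl_isCl h hS (hEfam.mono hST)
  have key : c ∈ cl ℬ S E ε := by
    refine cl_le h hS (gen_isFam' h hN.le _) hFcl ?_ hc
    intro σ hσ
    refine gen_le hF ?_
    intro δ' hδ' hrow' c' hc'
    have hδ'' : δ' i ≤ ρ i := by
      have : δ' i < ρ i + 1 := hδ'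
      omega
    rcases Nat.lt_or_eq_of_le hδ'' with h1 | h1
    · exact le_cl h hEfam δ' (Submodule.mem_sup_right (le_nlt h hN.le h1 hc'))
    · obtain ⟨τ, hτ, s, hs, hne, hsc⟩ := hg.max δ' (by
        intro j hj
        by_cases hji : j = i
        · rw [hji]; exact h1
        · have hj' : j ∉ insert i S := by simp [hji, hj]
          rw [hrow' j hj', Pi.add_apply, hσ j hj, zero_add, hrow j hj']) c' hc'
      refine (mem_cl h hS (hEfam.mono hST)).2 ⟨hN.le _ hc', τ, hτ, s, hs, hne, ?_⟩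
      exact sup_le_sup (lin_mono hST _) le_rfl hsc
  exact ((mem_cl h hS (hEfam.mono hST)).1 key).2

/-- The freeness statement at distance `n`. -/
def Phi (ℬ : (ι → ℕ) → Submodule K B) (S : Finset ι) (i : ι)
    (N : (ι → ℕ) → Submodule K B) (n : ℕ) : Prop :=
  ∀ (ρ : ι → ℕ) (m : ℕ) (g : Fin m → B) (δ : Fin m → ι → ℕ),
    MaxList ℬ S N (nlt ℬ S i N (ρ i)) ρ g δ →
    ∀ α, (∀ j, j ∉ insert i S → α j = ρ j) → α i = ρ i + n →
    ∀ a : Fin m → B, (∀ l, a l ∈ sm ℬ (insert i S) α (δ l)) →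
      ∑ l, a l * g l ∈ nlt ℬ S i N (ρ i) α → ∀ l, a l = 0

theorem sat_lemma (h : Grd D ℬ) (hS : Dom ℬ S) (hiS : i ∉ S) (hN : IsFam ℬ (insert i S) N)
    {n : ℕ} (ih : ∀ n' < n, Phi ℬ S i N n') {k : ℕ} {ε : ι → ℕ} {c : B}
    (hc : c ∈ N ε) (hv : ∀ v ∈ ℬ (e i), v * c ∈ nlt ℬ S i N k (e i + ε))
    (hlt : ε i + 1 < n + k) : c ∈ nlt ℬ S i N k ε := by
  have hmain : ∀ d, c ∈ nlt ℬ S i N (k + d) ε → c ∈ nlt ℬ S i N k ε := by
    intro d
    induction d with
    | zero => exact fun hcd => hcd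
    | succ d ihd =>
      intro hcd
      apply ihd
      by_cases hk : ε i < k + d
      · exact le_nlt h hN.le hk hc
      · push Not at hk
        set ρ : ι → ℕ := Function.update ε i (k + d) with hρ
        have hρi : ρ i = k + d := by simp [hρ]
        obtain ⟨m, g, δ, hg⟩ := exists_maxList h S hN.le (nlt ℬ S i N (ρ i)) ρ
        have hrow : ∀ j, j ∉ insert i S → ε j = ρ j := by
          intro j hj
          have hji : j ≠ i := fun h' => hj (by simp [h'])
          simp [hρ, hji]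
        obtain ⟨σ, hσ, s, hs, hne, hsc⟩ := rep h hS hN hg hrow (by rw [hρi]; exact hcd)
        obtain ⟨z, ⟨a, ha, rfl⟩, ν, hν, hz⟩ := Submodule.mem_sup.1 hsc
        have hσi : σ i = 0 := hσ i hiS
        have ha0 : ∀ v ∈ ℬ (e i), ∀ l, v * a l = 0 := by
          intro v hv'
          refine ih ((e i + (σ + ε)) i - ρ i) ?_ ρ m g δ hg (e i + (σ + ε)) ?_ ?_
            (fun l => v * a l) (fun l => sm_smul h (Sup.single (Finset.mem_insert_self _ _)) hv'
              (ha l)) ?_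
          · simp only [Pi.add_apply, e_same, hσi, hρi]
            omega
          · intro j hj
            have hji : j ≠ i := fun h' => hj (by simp [h'])
            have hjS : j ∉ S := fun h' => hj (by simp [h'])
            simp [e_other hji, hσ j hjS, hrow j hj]
          · simp only [Pi.add_apply, e_same, hσi, hρi]
            omega
          · have h1 : ∑ l, (v * a l) * g l = v * (s * c) - v * ν := by
              rw [← hz, mul_add, Finset.mul_sum]
              simp [mul_assoc]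
            rw [h1, hρi]
            refine sub_mem ?_ ?_
            · refine nlt_mono (Nat.le_add_right k d) _ ?_
              rw [← mul_assoc]
              have h2 : v * s ∈ ℬ σ * ℬ (e i) := by
                rw [h.mul, add_comm]
                exact h.mul_mem hv' hs
              refine mul_mul_mem h2 hv ?_
              intro b hb w hw
              refine (nlt_isFam h hS hN.le k).smul_eq (hσ.mono (Finset.subset_insert _ _)) ?_ hb hw
              abel
            · rw [hρi] at hν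
              exact (nlt_isFam h hS hN.le _).smul_eq
                (Sup.single (Finset.mem_insert_self _ _)) rfl hv' hν
        have ha1 : ∀ l, a l = 0 := by
          intro l
          obtain ⟨v, hv', hv0⟩ := h.ne_bot (e i)
          obtain ⟨β, hβ⟩ := sm_homog (ha l)
          exact h.reg_left v hv' hv0 β (a l) hβ (ha0 v hv' l)
        have h3 : s * c = ν := by
          rw [← hz]
          simp [ha1]
        refine nlt_isCl h hS hN.le _ σ hσ s hs hne ε c (hN.le _ hc) ?_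
        rw [h3, ← hρi]
        exact hν
  exact hmain (ε i + 1) (le_nlt h hN.le (by omega) hc)

theorem phi_two (h : Grd D ℬ) (hS : Dom ℬ S) (hiS : i ∉ S) (hiD : i ∈ D)
    (hN : IsFam ℬ (insert i S) N) (hcl : IsCl ℬ S N) (hsat : IsSat ℬ i N) (n : ℕ)
    (ih : ∀ n' < n, Phi ℬ S i N n') : Phi ℬ S i N n := by
  intro ρ m g δ hg α hrow hlev a ha hsum
  have hgi : ∀ l, δ l i = ρ i := fun l => hg.row l i hiS
  rcases Nat.eq_zero_or_pos n with hn | hn
  · subst hn
    exact hg.ind α a (fun l => sm_restrict (by rw [hgi, hlev, add_zero]) (ha l)) hsum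
  obtain ⟨α', rfl⟩ := exists_shift (i := i) (β := α) (by omega)
  have hlev' : α' i + 1 = ρ i + n := by
    simp only [Pi.add_apply, e_same] at hlev
    omega
  have hrow' : ∀ j, j ∉ insert i S → α' j = ρ j := by
    intro j hj
    have hji : j ≠ i := fun h' => hj (by simp [h'])
    have := hrow j hj
    simpa [e_other hji] using this
  obtain ⟨x, y, p, q, ax⟩ := h.axis hiD
  have hST : S ⊆ insert i S := Finset.subset_insert _ _
  have hiT : Sup (insert i S) (e i) := Sup.single (Finset.mem_insert_self _ _)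
  -- decompose the coefficients
  have hdec : ∀ l, ∃ b ∈ sm ℬ (insert i S) α' (δ l), ∃ b' ∈ sm ℬ (insert i S) α' (δ l),
      a l = x * b + y * b' := by
    intro l
    refine mul_pair ax.sxy (sm_step h ?_ (ha l))
    rw [hgi l]
    simp only [Pi.add_apply, e_same]
    omega
  choose a' ha' a'' ha'' haeq using hdec
  obtain ⟨σ, hσ, s, hs, hne, hsc⟩ := nlt_step h hS hN.le (by
    simp only [Pi.add_apply, e_same]
    omega) hsum
  obtain ⟨ν, hν, ν', hν', hνeq⟩ := mul_pair ax.sxy hsc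
  have hsx : s * x ∈ ℬ (e i) * ℬ σ := by
    rw [h.mul, add_comm]; exact h.mul_mem hs ax.xm
  have hsy : s * y ∈ ℬ (e i) * ℬ σ := by
    rw [h.mul, add_comm]; exact h.mul_mem hs ax.ym
  obtain ⟨u11, hu11, u21, hu21, hux⟩ := mul_pair ax.sxy hsx
  obtain ⟨u12, hu12, u22, hu22, huy⟩ := mul_pair ax.sxy hsy
  set A' : B := ∑ l, a' l * g l with hA'
  set A'' : B := ∑ l, a'' l * g l with hA''
  have hAmem : A' ∈ N α' := Submodule.sum_mem _ fun l _ => hN.sm_mul (ha' l) (hg.mem l)
  have hAmem' : A'' ∈ N α' := Submodule.sum_mem _ fun l _ => hN.sm_mul (ha'' l) (hg.mem l)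
  have hsumeq : ∑ l, a l * g l = x * A' + y * A'' := by
    rw [hA', hA'', Finset.mul_sum, Finset.mul_sum, ← Finset.sum_add_distrib]
    refine Finset.sum_congr rfl fun l _ => ?_
    rw [haeq l, add_mul, mul_assoc, mul_assoc]
  set X1 : B := u11 * A' + u12 * A'' - ν with hX1
  set X2 : B := u21 * A' + u22 * A'' - ν' with hX2
  have hnltN := nlt_le h hS hN hcl (ρ i)
  have hσT := hσ.mono hST
  have hX1mem : X1 ∈ N (σ + α') :=
    sub_mem (add_mem (hN.smul σ hσT _ _ hu11 _ hAmem) (hN.smul σ hσT _ _ hu12 _ hAmem'))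
      (hnltN _ hν)
  have hX2mem : X2 ∈ N (σ + α') :=
    sub_mem (add_mem (hN.smul σ hσT _ _ hu21 _ hAmem) (hN.smul σ hσT _ _ hu22 _ hAmem'))
      (hnltN _ hν')
  have hrelX : x * X1 + y * X2 = 0 := by
    have h1 : s * (x * A' + y * A'') = x * ν + y * ν' := by rw [← hsumeq]; exact hνeq
    have h2 : s * (x * A' + y * A'') = (s * x) * A' + (s * y) * A'' := by noncomm_ring
    rw [h2, hux, huy] at h1
    have h3 : x * X1 + y * X2 = (x * u11 + y * u21) * A' + (x * u12 + y * u22) * A'' -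
        (x * ν + y * ν') := by
      rw [hX1, hX2]; noncomm_ring
    rw [h3, h1, sub_self]
  -- coefficients
  have hc1 : ∀ l, u11 * a' l + u12 * a'' l ∈ sm ℬ (insert i S) (σ + α') (δ l) := fun l =>
    add_mem (sm_smul h hσT hu11 (ha' l)) (sm_smul h hσT hu12 (ha'' l))
  have hc2 : ∀ l, u21 * a' l + u22 * a'' l ∈ sm ℬ (insert i S) (σ + α') (δ l) := fun l =>
    add_mem (sm_smul h hσT hu21 (ha' l)) (sm_smul h hσT hu22 (ha'' l))
  have hsum1 : ∑ l, (u11 * a' l + u12 * a'' l) * g l = X1 + ν := by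
    rw [hX1, sub_add_cancel, hA', hA'', Finset.mul_sum, Finset.mul_sum, ← Finset.sum_add_distrib]
    refine Finset.sum_congr rfl fun l _ => ?_
    noncomm_ring
  have hsum2 : ∑ l, (u21 * a' l + u22 * a'' l) * g l = X2 + ν' := by
    rw [hX2, sub_add_cancel, hA', hA'', Finset.mul_sum, Finset.mul_sum, ← Finset.sum_add_distrib]
    refine Finset.sum_congr rfl fun l _ => ?_
    noncomm_ring
  have hsa : ∀ l, s * a l = x * (u11 * a' l + u12 * a'' l) + y * (u21 * a' l + u22 * a'' l) := by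
    intro l
    have h1 : s * a l = (s * x) * a' l + (s * y) * a'' l := by rw [haeq l]; noncomm_ring
    rw [h1, hux, huy]
    noncomm_ring
  have hσi : σ i = 0 := hσ i hiS
  have hrow2 : ∀ j, j ∉ insert i S → (σ + α') j = ρ j := by
    intro j hj
    have hjS : j ∉ S := fun h' => hj (by simp [h'])
    simp [hσ j hjS, hrow' j hj]
  -- the case where both lie in the smaller part
  have hin : X1 ∈ nlt ℬ S i N (ρ i) (σ + α') → X2 ∈ nlt ℬ S i N (ρ i) (σ + α') →
      ∀ l, a l = 0 := by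
    intro h1 h2 l
    have h3 := ih (n - 1) (by omega) ρ m g δ hg (σ + α') hrow2
      (by simp only [Pi.add_apply, hσi]; omega) _ hc1 (by rw [hsum1]; exact add_mem h1 hν) l
    have h4 := ih (n - 1) (by omega) ρ m g δ hg (σ + α') hrow2
      (by simp only [Pi.add_apply, hσi]; omega) _ hc2 (by rw [hsum2]; exact add_mem h2 hν') l
    have h5 : s * a l = 0 := by rw [hsa l, h3, h4, mul_zero, mul_zero, add_zero]
    obtain ⟨β, hβ⟩ := sm_homog (ha l)
    exact (hS σ hσ s hs hne β (a l) hβ).1 h5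
  obtain ⟨c, hc1eq, hc2eq, hc⟩ := ax.exact _ X1 (hN.le _ hX1mem) X2 (hN.le _ hX2mem) hrelX
  rcases hc with rfl | ⟨ε, hε, hcε⟩
  · refine hin ?_ ?_
    · rw [hc1eq, mul_zero]; exact zero_mem _
    · rw [hc2eq, mul_zero]; exact zero_mem _
  have hεi : ε i + 1 = α' i := by
    have := congrFun hε i
    simp only [Pi.add_apply, e_same, hσi] at this
    omega
  have hcN : c ∈ N ε := by
    refine hsat ε c hcε fun v hv => ?_
    obtain ⟨k, k', rfl⟩ := ax.spq v hv
    rw [add_mul, smul_mul_assoc, smul_mul_assoc, ← hc1eq, ← hc2eq, ← hε]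
    exact add_mem (Submodule.smul_mem _ _ hX1mem) (Submodule.smul_mem _ _ hX2mem)
  by_cases hn1 : n = 1
  · have hlt : ε i < ρ i := by omega
    have h1 := le_nlt (S := S) h hN.le hlt hcN
    refine hin ?_ ?_
    · rw [hc1eq, hε]
      exact (nlt_isFam h hS hN.le _).smul _ hiT _ _ ax.pm _ h1
    · rw [hc2eq, hε]
      exact (nlt_isFam h hS hN.le _).smul _ hiT _ _ ax.qm _ h1
  -- now `n ≥ 2`
  have hgl : ∀ l, g l ∈ nlt ℬ S i N (ρ i + 1) (δ l) := fun l =>
    le_nlt h hN.le (by rw [hgi l]; exact Nat.lt_succ_self _) (hg.mem l)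
  have hfam1 := nlt_isFam (i := i) h hS hN.le (ρ i + 1)
  have hA1 : A' ∈ nlt ℬ S i N (ρ i + 1) α' :=
    Submodule.sum_mem _ fun l _ => hfam1.sm_mul (ha' l) (hgl l)
  have hA2 : A'' ∈ nlt ℬ S i N (ρ i + 1) α' :=
    Submodule.sum_mem _ fun l _ => hfam1.sm_mul (ha'' l) (hgl l)
  have hX1' : X1 ∈ nlt ℬ S i N (ρ i + 1) (σ + α') :=
    sub_mem (add_mem (hfam1.smul σ hσT _ _ hu11 _ hA1) (hfam1.smul σ hσT _ _ hu12 _ hA2))
      (nlt_mono (Nat.le_succ _) _ hν)
  have hX2' : X2 ∈ nlt ℬ S i N (ρ i + 1) (σ + α') :=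
    sub_mem (add_mem (hfam1.smul σ hσT _ _ hu21 _ hA1) (hfam1.smul σ hσT _ _ hu22 _ hA2))
      (nlt_mono (Nat.le_succ _) _ hν')
  have hcnlt : c ∈ nlt ℬ S i N (ρ i + 1) ε := by
    refine sat_lemma h hS hiS hN ih hcN ?_ (by omega)
    intro v hv
    obtain ⟨k, k', rfl⟩ := ax.spq v hv
    rw [add_mul, smul_mul_assoc, smul_mul_assoc, ← hc1eq, ← hc2eq, ← hε]
    exact add_mem (Submodule.smul_mem _ _ hX1') (Submodule.smul_mem _ _ hX2')
  have hrowε : ∀ j, j ∉ insert i S → ε j = ρ j := by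
    intro j hj
    have hji : j ≠ i := fun h' => hj (by simp [h'])
    have h1 := congrFun hε j
    rw [hrow2 j hj] at h1
    simp only [Pi.add_apply, e_other hji] at h1
    omega
  obtain ⟨σ', hσ', s', hs', hne', hsc'⟩ := rep h hS hN hg hrowε hcnlt
  obtain ⟨z, ⟨b, hb, rfl⟩, ν'', hν'', hz⟩ := Submodule.mem_sup.1 hsc'
  obtain ⟨θ, hθ, s2, hs2, hne2, p', hp', q', hq', hsp, hsq⟩ :=
    h.ore_two hS hσ' hs' hne' ax.pm ax.qm
  have hθT := hθ.mono hST
  have hdeg : (θ + e i) + (σ' + ε) = (θ + σ') + (σ + α') := by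
    rw [hε]; abel
  have hs2T : Sup (insert i S) (θ + σ') := hθT.add (hσ'.mono hST)
  have hfam0 := nlt_isFam (i := i) h hS hN.le (ρ i)
  have hrow3 : ∀ j, j ∉ insert i S → ((θ + σ') + (σ + α')) j = ρ j := by
    intro j hj
    have hjS : j ∉ S := fun h' => hj (by simp [h'])
    have := hrow2 j hj
    simp only [Pi.add_apply] at this ⊢
    rw [hθ j hjS, hσ' j hjS]
    omega
  have hlev3 : ((θ + σ') + (σ + α')) i = ρ i + (n - 1) := by
    simp only [Pi.add_apply, hσi, hθ i hiS, hσ' i hiS]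
    omega
  have claim : ∀ (r X κ : B) (coef : Fin m → B), X = r * c →
      κ ∈ nlt ℬ S i N (ρ i) (σ + α') →
      (∀ l, coef l ∈ sm ℬ (insert i S) (σ + α') (δ l)) → ∑ l, coef l * g l = X + κ →
      ∀ r' ∈ ℬ (θ + e i), s2 * r = r' * s' → ∀ l, s2 * coef l = r' * b l := by
    intro r X κ coef hXr hκ hcoef hsumc r' hr' hsr l
    have h1 : ∀ l, s2 * coef l - r' * b l ∈ sm ℬ (insert i S) ((θ + σ') + (σ + α')) (δ l) := by
      intro l
      refine sub_mem (sm_smul h hs2T hs2 (hcoef l)) ?_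
      rw [← hdeg]
      exact sm_smul h (hθT.add hiT) hr' (hb l)
    have h2 : ∑ l, (s2 * coef l - r' * b l) * g l = s2 * κ + r' * ν'' := by
      have h3 : ∑ l, (s2 * coef l - r' * b l) * g l =
          s2 * (∑ l, coef l * g l) - r' * (∑ l, b l * g l) := by
        rw [Finset.mul_sum, Finset.mul_sum, ← Finset.sum_sub_distrib]
        refine Finset.sum_congr rfl fun l _ => ?_
        noncomm_ring
      have h4 : ∑ l, b l * g l = s' * c - ν'' := by rw [← hz, add_sub_cancel_right]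
      rw [h3, hsumc, h4, hXr]
      have h5 : s2 * (r * c + κ) - r' * (s' * c - ν'') =
          (s2 * r) * c - (r' * s') * c + s2 * κ + r' * ν'' := by noncomm_ring
      rw [h5, hsr, sub_self, zero_add]
    have h6 := ih (n - 1) (by omega) ρ m g δ hg _ hrow3 hlev3 _ h1 (by
      rw [h2]
      refine add_mem (hfam0.smul _ hs2T _ _ hs2 _ hκ) ?_
      rw [← hdeg]
      exact hfam0.smul _ (hθT.add hiT) _ _ hr' _ hν'') l
    exact sub_eq_zero.1 h6
  have cl1 := claim p X1 ν _ hc1eq hν hc1 hsum1 p' hp' hsp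
  have cl2 := claim q X2 ν' _ hc2eq hν' hc2 hsum2 q' hq' hsq
  obtain ⟨θ', hθ', t, ht, htne, x1, hx1, y1, hy1, htx, hty⟩ :=
    h.ore_two hS (hθ.add hσ') hs2 hne2 ax.xm ax.ym
  have hzero : x1 * p' + y1 * q' = 0 := by
    have h1 : x1 * p' + y1 * q' ∈ ℬ ((θ' + e i) + (θ + e i)) :=
      add_mem (h.mul_mem hx1 hp') (h.mul_mem hy1 hq')
    refine (hS σ' hσ' s' hs' hne' _ _ h1).2 ?_
    have h2 : (x1 * p' + y1 * q') * s' = x1 * (p' * s') + y1 * (q' * s') := by noncomm_ring
    rw [h2, ← hsp, ← hsq, ← mul_assoc, ← mul_assoc, ← htx, ← hty, mul_assoc, mul_assoc,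
      ← mul_add, ax.rel, mul_zero]
  intro l
  have h1 : t * (s * a l) = 0 := by
    have h2 : t * (s * a l) = (t * x) * (u11 * a' l + u12 * a'' l) +
        (t * y) * (u21 * a' l + u22 * a'' l) := by rw [hsa l]; noncomm_ring
    rw [h2, htx, hty, mul_assoc, mul_assoc, cl1 l, cl2 l, ← mul_assoc, ← mul_assoc, ← add_mul,
      hzero, zero_mul]
  obtain ⟨β, hβ⟩ := sm_homog (ha l)
  have h3 := (hS _ (hθ'.add (hθ.add hσ')) t ht htne _ _ (h.mul_mem hs hβ)).1 h1
  exact (hS σ hσ s hs hne β (a l) hβ).1 h3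

theorem phi_one (h : Grd D ℬ) (hS : Dom ℬ S) (hiS : i ∉ S) (hiD : i ∉ D)
    (hN : IsFam ℬ (insert i S) N) (n : ℕ)
    (ih : ∀ n' < n, Phi ℬ S i N n') : Phi ℬ S i N n := by
  intro ρ m g δ hg α hrow hlev a ha hsum
  have hgi : ∀ l, δ l i = ρ i := fun l => hg.row l i hiS
  rcases Nat.eq_zero_or_pos n with hn | hn
  · subst hn
    exact hg.ind α a (fun l => sm_restrict (by rw [hgi, hlev, add_zero]) (ha l)) hsum
  obtain ⟨α', rfl⟩ := exists_shift (i := i) (β := α) (by omega)
  have hlev' : α' i + 1 = ρ i + n := by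
    simp only [Pi.add_apply, e_same] at hlev
    omega
  have hrow' : ∀ j, j ∉ insert i S → α' j = ρ j := by
    intro j hj
    have hji : j ≠ i := fun h' => hj (by simp [h'])
    have := hrow j hj
    simpa [e_other hji] using this
  obtain ⟨x, ax⟩ := h.axis1 hiD
  have hST : S ⊆ insert i S := Finset.subset_insert _ _
  have hdec : ∀ l, ∃ b ∈ sm ℬ (insert i S) α' (δ l), a l = x * b := by
    intro l
    refine mul_single ax.sx (sm_step h ?_ (ha l))
    rw [hgi l]
    simp only [Pi.add_apply, e_same]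
    omega
  choose a' ha' haeq using hdec
  obtain ⟨σ, hσ, s, hs, hne, hsc⟩ := nlt_step h hS hN.le (by
    simp only [Pi.add_apply, e_same]
    omega) hsum
  obtain ⟨ν, hν, hνeq⟩ := mul_single ax.sx hsc
  have hsx : s * x ∈ ℬ (e i) * ℬ σ := by
    rw [h.mul, add_comm]; exact h.mul_mem hs ax.xm
  obtain ⟨u, hu, hux⟩ := mul_single ax.sx hsx
  have hσT := hσ.mono hST
  have hσi : σ i = 0 := hσ i hiS
  have hAmem : ∑ l, a' l * g l ∈ N α' :=
    Submodule.sum_mem _ fun l _ => hN.sm_mul (ha' l) (hg.mem l)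
  have hsumeq : ∑ l, a l * g l = x * ∑ l, a' l * g l := by
    rw [Finset.mul_sum]
    refine Finset.sum_congr rfl fun l _ => ?_
    rw [haeq l, mul_assoc]
  have hX : u * (∑ l, a' l * g l) = ν := by
    have h1 : x * (u * (∑ l, a' l * g l) - ν) = 0 := by
      rw [mul_sub, ← mul_assoc, ← hux, mul_assoc, ← hsumeq, hνeq, sub_self]
    have h2 := ax.reg x ax.xm ax.xne (σ + α') _
      (sub_mem (h.mul_mem hu (hN.le _ hAmem)) ((nlt_isFam h hS hN.le _).le _ hν)) h1
    exact sub_eq_zero.1 h2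
  have hrow2 : ∀ j, j ∉ insert i S → (σ + α') j = ρ j := by
    intro j hj
    have hjS : j ∉ S := fun h' => hj (by simp [h'])
    simp [hσ j hjS, hrow' j hj]
  intro l
  have h3 := ih (n - 1) (by omega) ρ m g δ hg (σ + α') hrow2
      (by simp only [Pi.add_apply, hσi]; omega) (fun l => u * a' l)
      (fun l => sm_smul h hσT hu (ha' l)) (by
        have h4 : ∑ l, (u * a' l) * g l = ν := by
          rw [← hX, Finset.mul_sum]
          simp [mul_assoc]
        rw [h4]
        exact hν) l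
  have h5 : s * a l = 0 := by
    have h3' : u * a' l = 0 := h3
    rw [haeq l, ← mul_assoc, hux, mul_assoc, h3', mul_zero]
  obtain ⟨β, hβ⟩ := sm_homog (ha l)
  exact (hS σ hσ s hs hne β (a l) hβ).1 h5

/-- The freeness lemma. -/
theorem phi_all (h : Grd D ℬ) (hS : Dom ℬ S) (hiS : i ∉ S)
    (hN : IsFam ℬ (insert i S) N) (hcl : IsCl ℬ S N) (hsat : IsSat ℬ i N) (n : ℕ) :
    Phi ℬ S i N n := by
  induction n using Nat.strong_induction_on with
  | _ n ih =>
    by_cases hiD : i ∈ D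
    · exact phi_two h hS hiS hiD hN hcl hsat n ih
    · exact phi_one h hS hiS hiD hN n ih

/-- The filtration by generation degree is closed in `N` under division by homogeneous elements
supported in `insert i S`. -/
theorem nlt_closed (h : Grd D ℬ) (hS : Dom ℬ S) (hiS : i ∉ S) (hT : Dom ℬ (insert i S))
    (hN : IsFam ℬ (insert i S) N) (hcl : IsCl ℬ S N) (hsat : IsSat ℬ i N) {k : ℕ}
    {ε : ι → ℕ} {c : B} (hc : c ∈ N ε) {β : ι → ℕ} (hβ : Sup (insert i S) β) {a : B}
    (ha : a ∈ ℬ β) (hane : a ≠ 0) (hac : a * c ∈ nlt ℬ S i N k (β + ε)) :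
    c ∈ nlt ℬ S i N k ε := by
  have hST : S ⊆ insert i S := Finset.subset_insert _ _
  have hmain : ∀ d, c ∈ nlt ℬ S i N (k + d) ε → c ∈ nlt ℬ S i N k ε := by
    intro d
    induction d with
    | zero => exact fun hcd => hcd
    | succ d ihd =>
      intro hcd
      apply ihd
      by_cases hk : ε i < k + d
      · exact le_nlt h hN.le hk hc
      · push Not at hk
        set ρ : ι → ℕ := Function.update ε i (k + d) with hρ
        have hρi : ρ i = k + d := by simp [hρ]
        obtain ⟨m, g, δ, hg⟩ := exists_maxList h S hN.le (nlt ℬ S i N (ρ i)) ρ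
        have hrow : ∀ j, j ∉ insert i S → ε j = ρ j := by
          intro j hj
          have hji : j ≠ i := fun h' => hj (by simp [h'])
          simp [hρ, hji]
        obtain ⟨σ, hσ, s, hs, hne, hsc⟩ := rep h hS hN hg hrow (by rw [hρi]; exact hcd)
        obtain ⟨z, ⟨b, hb, rfl⟩, ν, hν, hz⟩ := Submodule.mem_sup.1 hsc
        have hσi : σ i = 0 := hσ i hiS
        obtain ⟨θ, hθ, t, ht, htne, a', ha', hta⟩ := h.ore_one hS hσ hs hne ha
        have ha'T : Sup (insert i S) (θ + β) := (hθ.mono hST).add hβ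
        have hθi : θ i = 0 := hθ i hiS
        have ha'ne : a' ≠ 0 := by
          rintro rfl
          rw [zero_mul] at hta
          exact hane ((hS _ (hθ.add hσ) t ht htne _ _ ha).1 hta)
        have hb0 : ∀ l, a' * b l = 0 := by
          refine phi_all h hS hiS hN hcl hsat (((θ + β) + (σ + ε)) i - ρ i) ρ m g δ hg
            ((θ + β) + (σ + ε)) ?_ ?_ (fun l => a' * b l) (fun l => sm_smul h ha'T ha' (hb l)) ?_
          · intro j hj
            have hjS : j ∉ S := fun h' => hj (by simp [h'])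
            simp [hσ j hjS, hθ j hjS, hβ j hj, hrow j hj]
          · simp only [Pi.add_apply, hσi, hρi]
            omega
          · have h1 : ∑ l, (a' * b l) * g l = a' * (s * c) - a' * ν := by
              rw [← hz, mul_add, Finset.mul_sum]
              simp [mul_assoc]
            rw [h1, hρi]
            refine sub_mem ?_ ?_
            · refine nlt_mono (Nat.le_add_right k d) _ ?_
              rw [← mul_assoc, ← hta, mul_assoc]
              refine (nlt_isFam h hS hN.le k).smul_eq ((hθ.add hσ).mono hST) ?_ ht hac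
              abel
            · rw [hρi] at hν
              exact (nlt_isFam h hS hN.le _).smul_eq ha'T rfl ha' hν
        have hb1 : ∀ l, b l = 0 := by
          intro l
          obtain ⟨γ, hγ⟩ := sm_homog (hb l)
          exact (hT _ ha'T a' ha' ha'ne γ (b l) hγ).1 (hb0 l)
        have h3 : s * c = ν := by
          rw [← hz]
          simp [hb1]
        refine nlt_isCl h hS hN.le _ σ hσ s hs hne ε c (hN.le _ hc) ?_
        rw [h3, ← hρi]
        exact hν
  exact hmain (ε i + 1) (le_nlt h hN.le (by omega) hc)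

end Run7.h383
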