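import Pool.Agent.Run7.h383.Step

/-!
Regularity of nonzero homogeneous elements.
-/

set_option linter.unusedSectionVars false
set_option linter.style.haveILetI false

namespace Run7.h383

open Finset Module Filter Topology

variable {K B ι : Type*} [Field K] [Ring B] [Algebra K B] [DecidableEq ι]
variable {D : Finset ι} {ℬ : (ι → ℕ) → Submodule K B}
variable {R S : Finset ι} {i : ι} {N M : (ι → ℕ) → Submodule K B}

/-! ### The opposite family -/

/-- The family of homogeneous components in the opposite algebra. -/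
def opFam (ℬ : (ι → ℕ) → Submodule K B) : (ι → ℕ) → Submodule K Bᵐᵒᵖ := fun α =>
  (ℬ α).map (MulOpposite.opLinearEquiv K : B ≃ₗ[K] Bᵐᵒᵖ).toLinearMap

theorem mem_opFam {α : ι → ℕ} {x : Bᵐᵒᵖ} : x ∈ opFam ℬ α ↔ x.unop ∈ ℬ α := by
  constructor
  · rintro ⟨a, ha, rfl⟩
    exact ha
  · intro hx
    exact ⟨x.unop, hx, rfl⟩

theorem Grd.op (h : Grd D ℬ) : Grd D (opFam ℬ) := by
  refine ⟨mem_opFam.2 h.one, ?_, ?_, ?_⟩
  · intro α β
    have h1 := Submodule.map_op_mul (R := K) (ℬ β) (ℬ α)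
    rw [h.mul, add_comm] at h1
    exact h1.symm
  · intro α
    rw [← h.rk α]
    exact LinearEquiv.finrank_map_eq (MulOpposite.opLinearEquiv K : B ≃ₗ[K] Bᵐᵒᵖ) (ℬ α)
  · intro i hi v hv w hw hvw
    have h1 : w.unop * v.unop = 0 := by
      have := congrArg MulOpposite.unop hvw
      simpa using this
    rcases h.reg i hi _ (mem_opFam.1 hw) _ (mem_opFam.1 hv) h1 with h2 | h2
    · right; exact MulOpposite.unop_injective h2
    · left; exact MulOpposite.unop_injective h2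

theorem Dom.op (hS : Dom ℬ S) : Dom (opFam ℬ) S := by
  intro σ hσ s hs hne β b hb
  have hne' : s.unop ≠ 0 := fun h0 => hne (MulOpposite.unop_injective h0)
  obtain ⟨h1, h2⟩ := hS σ hσ s.unop (mem_opFam.1 hs) hne' β b.unop (mem_opFam.1 hb)
  constructor
  · intro h3
    apply MulOpposite.unop_injective
    apply h2
    have := congrArg MulOpposite.unop h3
    simpa using this
  · intro h3
    apply MulOpposite.unop_injective
    apply h1
    have := congrArg MulOpposite.unop h3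
    simpa using this

/-- Nonzero elements of degree `e i` are right regular. -/
theorem Grd.reg_right (h : Grd D ℬ) {i : ι} : ∀ v ∈ ℬ (e i), v ≠ 0 → ∀ α, ∀ c ∈ ℬ α,
    c * v = 0 → c = 0 := by
  intro v hv hv0 α c hc hcv
  have h1 := h.op.reg_left (i := i) (MulOpposite.op v) (mem_opFam.2 hv)
    (fun h0 => hv0 (MulOpposite.op_injective h0)) α (MulOpposite.op c) (mem_opFam.2 hc)
    (by rw [← MulOpposite.op_mul, hcv, MulOpposite.op_zero])
  exact MulOpposite.op_injective h1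

/-! ### Elements without left annihilator -/

theorem nlt_zero (h : Grd D ℬ) (hS : Dom ℬ S) (hN : ∀ α, N α ≤ ℬ α) {α : ι → ℕ} {c : B}
    (hc : c ∈ nlt ℬ S i N 0 α) : c = 0 := by
  obtain ⟨hc0, σ, hσ, s, hs, hne, hsc⟩ := (mem_cl h hS (gen_isFam' h hN 0)).1 hc
  have h1 : s * c = 0 := by
    have h2 : gen ℬ (insert i S) (fun δ => δ i < 0) N (σ + α) ≤ ⊥ := by
      refine Submodule.span_le.2 ?_
      rintro z ⟨β, δ, _, h3, _⟩
      exact absurd h3 (Nat.not_lt_zero _)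
    exact (Submodule.mem_bot K).1 (h2 hsc)
  exact (hS σ hσ s hs hne α c hc0).1 h1

theorem exists_free (h : Grd D ℬ) (hS : Dom ℬ S) (hiS : i ∉ S)
    (hN : IsFam ℬ (insert i S) N) (hcl : IsCl ℬ S N) (hsat : IsSat ℬ i N)
    {α₀ : ι → ℕ} {c₀ : B} (hc₀ : c₀ ∈ N α₀) (hne : c₀ ≠ 0) :
    ∃ δ, (∀ j, j ∉ insert i S → δ j = α₀ j) ∧ ∃ g ∈ N δ, g ≠ 0 ∧
      ∀ η, Sup (insert i S) η → ∀ a ∈ ℬ η, a * g = 0 → a = 0 := by
  classical
  have hex : ∃ k, c₀ ∈ nlt ℬ S i N k α₀ := ⟨α₀ i + 1, le_nlt h hN.le (Nat.lt_succ_self _) hc₀⟩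
  obtain ⟨k, hk, hkmin⟩ : ∃ k, c₀ ∈ nlt ℬ S i N (k + 1) α₀ ∧ c₀ ∉ nlt ℬ S i N k α₀ := by
    by_contra hcon
    push Not at hcon
    obtain ⟨k, hk⟩ := hex
    have hall : ∀ k, c₀ ∈ nlt ℬ S i N k α₀ → False := by
      intro k
      induction k with
      | zero => exact fun h0 => hne (nlt_zero h hS hN.le h0)
      | succ k ih => exact fun h1 => ih (hcon k h1)
    exact hall k hk
  set ρ : ι → ℕ := Function.update α₀ i k with hρ
  have hρi : ρ i = k := by simp [hρ]
  obtain ⟨m, g, δ, hg⟩ := exists_maxList h S hN.le (nlt ℬ S i N (ρ i)) ρ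
  have hrow : ∀ j, j ∉ insert i S → α₀ j = ρ j := by
    intro j hj
    have hji : j ≠ i := fun h' => hj (by simp [h'])
    simp [hρ, hji]
  obtain ⟨σ, hσ, s, hs, hsne, hsc⟩ := rep h hS hN hg hrow (by rw [hρi]; exact hk)
  have hm : 0 < m := by
    rcases Nat.eq_zero_or_pos m with h0 | h0
    · exfalso
      subst h0
      obtain ⟨z, ⟨b, hb, rfl⟩, ν, hν, hz⟩ := Submodule.mem_sup.1 hsc
      simp only [Finset.univ_eq_empty, Finset.sum_empty, zero_add] at hz
      rw [hz, hρi] at hν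
      exact hkmin (nlt_isCl h hS hN.le _ σ hσ s hs hsne _ _ (hN.le _ hc₀) hν)
    · exact h0
  have key : ∀ η, Sup (insert i S) η → ∀ a ∈ ℬ η, a * g ⟨0, hm⟩ = 0 → a = 0 := by
    intro η hη a ha h0
    have h1 := phi_all h hS hiS hN hcl hsat ((η + δ ⟨0, hm⟩) i - ρ i) ρ m g δ hg
      (η + δ ⟨0, hm⟩) ?_ ?_ (Pi.single ⟨0, hm⟩ a) ?_ ?_ ⟨0, hm⟩
    · simpa using h1
    · intro j hj
      have hjS : j ∉ S := fun h' => hj (by simp [h'])
      rw [Pi.add_apply, hη j hj, zero_add, hg.row _ j hjS]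
    · have h2 := hg.row ⟨0, hm⟩ i hiS
      simp only [Pi.add_apply, h2]
      omega
    · intro l
      by_cases hl : l = ⟨0, hm⟩
      · subst hl
        rw [Pi.single_eq_same]
        exact mem_sm_of hη ha
      · rw [Pi.single_eq_of_ne hl]
        exact zero_mem _
    · have h3 : ∑ l, (Pi.single ⟨0, hm⟩ a : Fin m → B) l * g l = a * g ⟨0, hm⟩ := by
        rw [Finset.sum_eq_single ⟨0, hm⟩]
        · rw [Pi.single_eq_same]
        · intro l _ hl
          rw [Pi.single_eq_of_ne hl, zero_mul]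
        · intro h4
          exact absurd (Finset.mem_univ _) h4
      rw [h3, h0]
      exact zero_mem _
  refine ⟨δ ⟨0, hm⟩, ?_, g ⟨0, hm⟩, hg.mem _, ?_, key⟩
  · intro j hj
    have hjS : j ∉ S := fun h' => hj (by simp [h'])
    rw [hg.row _ j hjS, hrow j hj]
  · intro h0
    exact h.nontrivial (key 0 (Sup.zero _) 1 h.one (by rw [h0, mul_zero]))

/-- The left annihilator family of `b`. -/
def ann (ℬ : (ι → ℕ) → Submodule K B) (b : B) : (ι → ℕ) → Submodule K B := fun α =>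
  ℬ α ⊓ LinearMap.ker (LinearMap.mulRight K b)

theorem mem_ann {b : B} {α : ι → ℕ} {a : B} : a ∈ ann ℬ b α ↔ a ∈ ℬ α ∧ a * b = 0 := Iff.rfl

theorem pow_mem_nsmul (h : Grd D ℬ) {v : B} {α : ι → ℕ} (hv : v ∈ ℬ α) (n : ℕ) :
    v ^ n ∈ ℬ (n • α) := by
  induction n with
  | zero => rw [pow_zero, zero_smul]; exact h.one
  | succ n ih =>
    rw [pow_succ, add_smul, one_smul]
    exact h.mul_mem ih hv

theorem dom_left_step (h : Grd D ℬ) (hS : Dom ℬ S) (hiS : i ∉ S) :
    ∀ β, Sup (insert i S) β → ∀ a ∈ ℬ β, a ≠ 0 → ∀ γ, ∀ b ∈ ℬ γ, a * b = 0 → b = 0 := by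
  intro β hβ a ha hane γ b hb hab
  by_contra hbne
  have hST : S ⊆ insert i S := Finset.subset_insert _ _
  have hiT : i ∈ insert i S := Finset.mem_insert_self _ _
  obtain ⟨v, hv, hv0⟩ := h.ne_bot (e i)
  -- the annihilator
  have hJfam : IsFam ℬ (insert i S) (ann ℬ b) := by
    constructor
    · intro α x hx
      exact hx.1
    · intro β' _ α x hx c hc
      refine mem_ann.2 ⟨h.mul_mem hx hc.1, ?_⟩
      rw [mul_assoc, (mem_ann.1 hc).2, mul_zero]
  have hJcl : IsCl ℬ S (ann ℬ b) := by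
    intro σ hσ s hs hne α c hc hsc
    refine mem_ann.2 ⟨hc, ?_⟩
    have h1 := (mem_ann.1 hsc).2
    rw [mul_assoc] at h1
    exact (hS σ hσ s hs hne _ _ (h.mul_mem hc hb)).1 h1
  have hJsat : IsSat ℬ i (ann ℬ b) := by
    intro α c hc hvc
    refine mem_ann.2 ⟨hc, ?_⟩
    have h1 := (mem_ann.1 (hvc v hv)).2
    rw [mul_assoc] at h1
    exact h.reg_left v hv hv0 _ _ (h.mul_mem hc hb) h1
  obtain ⟨δ, hδ, g, hg, hgne, hgfree⟩ :=
    exists_free h hS hiS hJfam hJcl hJsat (mem_ann.2 ⟨ha, hab⟩) hane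
  have hδT : Sup (insert i S) δ := by
    intro j hj
    rw [hδ j hj, hβ j hj]
  -- the saturated closure of the left ideal generated by `b`
  have hLfam : IsFam ℬ (insert i S) (lin ℬ (insert i S) (fun _ : Fin 1 => b) (fun _ => γ)) :=
    lin_isFam h (fun _ => hb)
  have hCfam := cl_isFam h hS hST hLfam
  have hCcl := cl_isCl h hS (hLfam.mono hST)
  have hNfam := sat_isFam h hiT hCfam
  have hNcl := sat_isCl h hS hST hiT hCfam hCcl
  have hNsat := sat_isSat h hiT hCfam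
  have hbN : b ∈ sat ℬ i (cl ℬ S (lin ℬ (insert i S) (fun _ : Fin 1 => b) (fun _ => γ))) γ := by
    refine le_sat hCfam γ (le_cl h hLfam γ ⟨fun _ => 1, fun _ => ?_, ?_⟩)
    · have := mem_sm_of (ℬ := ℬ) (δ := γ) (Sup.zero (insert i S)) h.one
      rwa [zero_add] at this
    · simp
  obtain ⟨δ', hδ', g', hg', hgne', hgfree'⟩ := exists_free h hS hiS hNfam hNcl hNsat hbN hbne
  obtain ⟨_, n, hn⟩ := (mem_sat h hiT hCfam).1 hg'
  obtain ⟨_, σ, hσ, s, hs, hsne, a₁', ha₁', hsum⟩ :=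
    (mem_cl h hS (hLfam.mono hST)).1 (hn (v ^ n) (pow_mem_nsmul h hv n))
  simp only [Finset.univ_unique, Finset.sum_singleton] at hsum
  obtain ⟨τ, hτ, ha₁⟩ : ∃ τ, Sup (insert i S) τ ∧ a₁' default ∈ ℬ τ := by
    rcases ha₁' default with h0 | ⟨τ, hτ, _, h2⟩
    · exact ⟨0, Sup.zero _, by rw [h0]; exact zero_mem _⟩
    · exact ⟨τ, hτ, h2⟩
  obtain ⟨θ, hθ, t, ht, htne, hx⟩ := h.ore hδT hg.1 (L := Unit) (fun _ => τ)
    (fun _ => a₁' default) (fun _ => ha₁) (fun _ η hη x hx hxg => hgfree η (fun j hj => by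
      rw [hη j hj, hτ j hj]) x hx hxg)
  obtain ⟨x, hx, hxe⟩ := hx ()
  have h1 : (t * (s * v ^ n)) * g' = 0 := by
    rw [mul_assoc t, mul_assoc s, hsum, ← mul_assoc, hxe, mul_assoc, (mem_ann.1 hg).2, mul_zero]
  have h2 : t * (s * v ^ n) = 0 := by
    refine hgfree' ((θ + δ) + (σ + n • e i)) ?_ _
      (h.mul_mem ht (h.mul_mem hs (pow_mem_nsmul h hv n))) h1
    refine (hθ.add hδT).add ((hσ.mono hST).add ?_)
    intro j hj
    have hji : j ≠ i := fun h' => hj (by simp [h'])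
    simp [hji]
  have h3 : ∀ n : ℕ, ∀ γ' : ι → ℕ, ∀ z ∈ ℬ γ', z * v ^ n = 0 → z = 0 := by
    intro n
    induction n with
    | zero => intro γ' z _ hz; simpa using hz
    | succ n ih =>
      intro γ' z hz hzv
      rw [pow_succ, ← mul_assoc] at hzv
      exact ih γ' z hz (h.reg_right v hv hv0 _ _ (h.mul_mem hz (pow_mem_nsmul h hv n)) hzv)
  have h4 : t * s = 0 := by
    refine h3 n _ _ (h.mul_mem ht hs) ?_
    rw [mul_assoc]
    exact h2
  exact htne ((hS σ hσ s hs hsne _ _ ht).2 h4)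

theorem Grd.dom (h : Grd D ℬ) (S : Finset ι) : Dom ℬ S := by
  induction S using Finset.induction_on with
  | empty => exact h.dom_empty
  | insert i S hiS hS =>
    intro σ hσ s hs hne β b hb
    constructor
    · exact dom_left_step h hS hiS σ hσ s hs hne β b hb
    · intro h0
      have h1 := dom_left_step h.op hS.op hiS σ hσ (MulOpposite.op s) (mem_opFam.2 hs)
        (fun h2 => hne (MulOpposite.op_injective h2)) β (MulOpposite.op b) (mem_opFam.2 hb)
        (by rw [← MulOpposite.op_mul, h0, MulOpposite.op_zero])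
      exact MulOpposite.op_injective h1

end Run7.h383
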