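import Pool.Agent.Run7.h383.Ore

/-!
Graded families of subspaces, closures, generated families, saturation.
-/

set_option linter.unusedSectionVars false
set_option linter.style.haveILetI false

namespace Run7.h383

open Finset Module Filter Topology

variable {K B ι : Type*} [Field K] [Ring B] [Algebra K B] [DecidableEq ι]
variable {D : Finset ι} {ℬ : (ι → ℕ) → Submodule K B}
variable {S T : Finset ι} {N M : (ι → ℕ) → Submodule K B}

/-- Families closed under left multiplication by homogeneous elements supported in `T`. -/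
structure IsFam (ℬ : (ι → ℕ) → Submodule K B) (T : Finset ι)
    (N : (ι → ℕ) → Submodule K B) : Prop where
  le : ∀ α, N α ≤ ℬ α
  smul : ∀ β, Sup T β → ∀ α, ∀ b ∈ ℬ β, ∀ c ∈ N α, b * c ∈ N (β + α)

/-- Families closed under division by nonzero homogeneous elements supported in `S`. -/
def IsCl (ℬ : (ι → ℕ) → Submodule K B) (S : Finset ι) (N : (ι → ℕ) → Submodule K B) : Prop :=
  ∀ σ, Sup S σ → ∀ s ∈ ℬ σ, s ≠ 0 → ∀ α, ∀ c ∈ ℬ α, s * c ∈ N (σ + α) → c ∈ N α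

/-- The closure of a family. -/
def cl (ℬ : (ι → ℕ) → Submodule K B) (S : Finset ι) (N : (ι → ℕ) → Submodule K B) :
    (ι → ℕ) → Submodule K B := fun α =>
  Submodule.span K {c | c ∈ ℬ α ∧ ∃ σ, Sup S σ ∧ ∃ s ∈ ℬ σ, s ≠ 0 ∧ s * c ∈ N (σ + α)}

theorem IsFam.mono {T' : Finset ι} (h : T ⊆ T') (hN : IsFam ℬ T' N) : IsFam ℬ T N :=
  ⟨hN.le, fun β hβ => hN.smul β (hβ.mono h)⟩

theorem IsFam.smul_eq (hN : IsFam ℬ T N) {β α γ : ι → ℕ} (hβ : Sup T β) (hγ : β + α = γ)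
    {b c : B} (hb : b ∈ ℬ β) (hc : c ∈ N α) : b * c ∈ N γ := hγ ▸ hN.smul β hβ α b hb c hc

theorem IsFam.sm_mul (hN : IsFam ℬ T N) {α δ : ι → ℕ} {a c : B} (ha : a ∈ sm ℬ T α δ)
    (hc : c ∈ N δ) : a * c ∈ N α := by
  rcases ha with rfl | ⟨β, h1, h2, h3⟩
  · simp
  · exact hN.smul_eq h1 h2 h3 hc

theorem mem_cl (h : Grd D ℬ) (hS : Dom ℬ S) (hN : IsFam ℬ S N) {α : ι → ℕ} {c : B} :
    c ∈ cl ℬ S N α ↔ c ∈ ℬ α ∧ ∃ σ, Sup S σ ∧ ∃ s ∈ ℬ σ, s ≠ 0 ∧ s * c ∈ N (σ + α) := by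
  constructor
  · intro hc
    induction hc using Submodule.span_induction with
    | mem x hx => exact hx
    | zero => exact ⟨zero_mem _, 0, Sup.zero S, 1, h.one, h.nontrivial, by simp⟩
    | add x y _ _ hx hy =>
      obtain ⟨hx0, σ₁, hσ₁, s₁, hs₁, hne₁, hx⟩ := hx
      obtain ⟨hy0, σ₂, hσ₂, s₂, hs₂, hne₂, hy⟩ := hy
      obtain ⟨τ₁, τ₂, hτ₁, hτ₂, hτ, u₁, hu₁, u₂, hu₂, hu, hne⟩ :=
        h.common hS hσ₁ hσ₂ hs₁ hs₂ hne₁ hne₂
      refine ⟨add_mem hx0 hy0, τ₁ + σ₁, hτ₁.add hσ₁, u₁ * s₁, h.mul_mem hu₁ hs₁, hne, ?_⟩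
      rw [mul_add]
      refine add_mem ?_ ?_
      · rw [mul_assoc]
        exact hN.smul_eq hτ₁ (add_assoc _ _ _).symm hu₁ hx
      · rw [hu, mul_assoc]
        refine hN.smul_eq hτ₂ ?_ hu₂ hy
        rw [hτ, add_assoc]
    | smul k x _ hx =>
      obtain ⟨hx0, σ₁, hσ₁, s₁, hs₁, hne₁, hx⟩ := hx
      refine ⟨Submodule.smul_mem _ _ hx0, σ₁, hσ₁, s₁, hs₁, hne₁, ?_⟩
      rw [mul_smul_comm]
      exact Submodule.smul_mem _ _ hx
  · intro hc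
    exact Submodule.subset_span hc

theorem le_cl (h : Grd D ℬ) (hN : IsFam ℬ T N) (α : ι → ℕ) : N α ≤ cl ℬ S N α := by
  intro c hc
  refine Submodule.subset_span ⟨hN.le α hc, 0, Sup.zero S, 1, h.one, h.nontrivial, ?_⟩
  simpa using hc

theorem cl_isFam (h : Grd D ℬ) (hS : Dom ℬ S) (hST : S ⊆ T) (hN : IsFam ℬ T N) :
    IsFam ℬ T (cl ℬ S N) := by
  have hN' := hN.mono hST
  constructor
  · intro α c hc
    exact ((mem_cl h hS hN').1 hc).1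
  · intro β hβ α b hb c hc
    obtain ⟨hc0, σ, hσ, s, hs, hne, hsc⟩ := (mem_cl h hS hN').1 hc
    obtain ⟨θ, hθ, t, ht, htne, x, hx, hxe⟩ := h.ore_one hS hσ hs hne hb
    refine (mem_cl h hS hN').2 ⟨h.mul_mem hb hc0, θ + σ, hθ.add hσ, t, ht, htne, ?_⟩
    rw [← mul_assoc, hxe, mul_assoc]
    refine hN.smul_eq ((hθ.mono hST).add hβ) ?_ hx hsc
    abel

theorem cl_isCl (h : Grd D ℬ) (hS : Dom ℬ S) (hN : IsFam ℬ S N) : IsCl ℬ S (cl ℬ S N) := by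
  intro σ hσ s hs hne α c hc hsc
  obtain ⟨_, σ', hσ', s', hs', hne', hsc'⟩ := (mem_cl h hS hN).1 hsc
  refine (mem_cl h hS hN).2 ⟨hc, σ' + σ, hσ'.add hσ, s' * s, h.mul_mem hs' hs, ?_, ?_⟩
  · intro h0
    exact hne' ((hS σ hσ s hs hne σ' s' hs').2 h0)
  · rw [mul_assoc, add_assoc]
    exact hsc'

theorem cl_le (h : Grd D ℬ) (hS : Dom ℬ S) (hN : IsFam ℬ S N) (hM : IsCl ℬ S M) {α : ι → ℕ}
    (hle : ∀ σ, Sup S σ → N (σ + α) ≤ M (σ + α)) : cl ℬ S N α ≤ M α := by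
  intro c hc
  obtain ⟨hc0, σ, hσ, s, hs, hne, hsc⟩ := (mem_cl h hS hN).1 hc
  exact hM σ hσ s hs hne α c hc0 (hle σ hσ hsc)

/-- The family generated over the directions `T` by the components of `N` in the degrees
satisfying `P`. -/
def gen (ℬ : (ι → ℕ) → Submodule K B) (T : Finset ι) (P : (ι → ℕ) → Prop)
    (N : (ι → ℕ) → Submodule K B) : (ι → ℕ) → Submodule K B := fun α =>
  Submodule.span K {z | ∃ β δ, Sup T β ∧ P δ ∧ β + δ = α ∧ ∃ b ∈ ℬ β, ∃ c ∈ N δ, z = b * c}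

variable {P : (ι → ℕ) → Prop}

theorem gen_isFam (h : Grd D ℬ) (hN : ∀ α, N α ≤ ℬ α) : IsFam ℬ T (gen ℬ T P N) := by
  constructor
  · intro α
    refine Submodule.span_le.2 ?_
    rintro z ⟨β, δ, h1, h2, rfl, b, hb, c, hc, rfl⟩
    exact h.mul_mem hb (hN _ hc)
  · intro β hβ α b hb c hc
    induction hc using Submodule.span_induction with
    | mem x hx =>
      obtain ⟨β', δ, h1, h2, rfl, b', hb', c', hc', rfl⟩ := hx
      refine Submodule.subset_span ⟨β + β', δ, hβ.add h1, h2, add_assoc _ _ _, b * b',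
        h.mul_mem hb hb', c', hc', (mul_assoc _ _ _).symm⟩
    | zero => simp
    | add x y _ _ hx hy => rw [mul_add]; exact add_mem hx hy
    | smul k x _ hx => rw [mul_smul_comm]; exact Submodule.smul_mem _ _ hx

theorem le_gen (h : Grd D ℬ) {δ : ι → ℕ} (hδ : P δ) : N δ ≤ gen ℬ T P N δ := by
  intro c hc
  exact Submodule.subset_span ⟨0, δ, Sup.zero T, hδ, zero_add _, 1, h.one, c, hc,
    (one_mul _).symm⟩

theorem gen_le (hM : IsFam ℬ T M) {α : ι → ℕ}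
    (hle : ∀ δ, P δ → (∀ j, j ∉ T → δ j = α j) → N δ ≤ M δ) : gen ℬ T P N α ≤ M α := by
  refine Submodule.span_le.2 ?_
  rintro z ⟨β, δ, h1, h2, rfl, b, hb, c, hc, rfl⟩
  exact hM.smul_eq h1 rfl hb (hle δ h2 (fun j hj => by simp [h1 j hj]) hc)

theorem gen_mono {P' : (ι → ℕ) → Prop} (hP : ∀ δ, P δ → P' δ) (α : ι → ℕ) :
    gen ℬ T P N α ≤ gen ℬ T P' N α := by
  refine Submodule.span_mono ?_
  rintro z ⟨β, δ, h1, h2, h3⟩
  exact ⟨β, δ, h1, hP δ h2, h3⟩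

theorem exists_shift {i : ι} {β : ι → ℕ} (h : 0 < β i) : ∃ β', β = e i + β' := by
  refine ⟨β - e i, ?_⟩
  funext j
  by_cases hj : j = i
  · subst hj
    simp
    omega
  · simp [hj]

theorem e_same (i : ι) : e i i = 1 := by simp

theorem e_other {i j : ι} (h : j ≠ i) : e i j = 0 := by simp [h]

theorem gen_step (h : Grd D ℬ) {i : ι} {j : ℕ} {α : ι → ℕ} (hα : j ≤ (e i + α) i) :
    gen ℬ T (fun δ => δ i < j) N (e i + α) ≤ ℬ (e i) * gen ℬ T (fun δ => δ i < j) N α := by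
  refine Submodule.span_le.2 ?_
  rintro z ⟨β, δ, h1, h2, h3, b, hb, c, hc, rfl⟩
  have h4 := congrFun h3 i
  simp only [Pi.add_apply, e_same] at h4 hα
  obtain ⟨β', rfl⟩ := exists_shift (i := i) (β := β) (by omega)
  have h5 : β' + δ = α := by
    rw [add_assoc] at h3
    exact add_left_cancel h3
  have h6 : Sup T β' := by
    intro k hk
    have := h1 k hk
    simp only [Pi.add_apply] at this
    omega
  rw [← h.mul] at hb
  show b * c ∈ _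
  induction hb using Submodule.mul_induction_on' with
  | mem_mul_mem m hm n hn =>
    rw [mul_assoc]
    exact Submodule.mul_mem_mul hm (Submodule.subset_span ⟨β', δ, h6, h2, h5, n, hn, c, hc, rfl⟩)
  | add x _ y _ hx hy => rw [add_mul]; exact add_mem hx hy

/-- Multiplying a one-sided family by a component, in terms of products. -/
theorem mul_mul_mem {γ : ι → ℕ} {V : Submodule K B} {W : Submodule K B} {b c : B}
    (hb : b ∈ ℬ γ * V) (hV : ∀ v ∈ V, v * c ∈ W) {U : Submodule K B}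
    (hU : ∀ a ∈ ℬ γ, ∀ w ∈ W, a * w ∈ U) : b * c ∈ U := by
  induction hb using Submodule.mul_induction_on' with
  | mem_mul_mem m hm n hn =>
    rw [mul_assoc]
    exact hU m hm _ (hV n hn)
  | add x _ y _ hx hy => rw [add_mul]; exact add_mem hx hy

/-! ### Saturation in direction `i` -/

/-- `N` is saturated in the direction `i`. -/
def IsSat (ℬ : (ι → ℕ) → Submodule K B) (i : ι) (N : (ι → ℕ) → Submodule K B) : Prop :=
  ∀ α, ∀ c ∈ ℬ α, (∀ v ∈ ℬ (e i), v * c ∈ N (e i + α)) → c ∈ N α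

/-- Saturation in the direction `i`. -/
def sat (ℬ : (ι → ℕ) → Submodule K B) (i : ι) (N : (ι → ℕ) → Submodule K B) :
    (ι → ℕ) → Submodule K B := fun α =>
  Submodule.span K {c | c ∈ ℬ α ∧ ∃ n : ℕ, ∀ u ∈ ℬ (n • e i), u * c ∈ N (n • e i + α)}

theorem sat_up (h : Grd D ℬ) {i : ι} (hi : i ∈ T) (hN : IsFam ℬ T N) {α : ι → ℕ} {c : B} {n : ℕ}
    (hc : ∀ u ∈ ℬ (n • e i), u * c ∈ N (n • e i + α)) {m : ℕ} (hm : n ≤ m) :
    ∀ u ∈ ℬ (m • e i), u * c ∈ N (m • e i + α) := by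
  obtain ⟨k, rfl⟩ := Nat.exists_eq_add_of_le' hm
  intro u hu
  rw [add_smul, ← h.mul] at hu
  refine mul_mul_mem hu hc ?_
  intro a ha w hw
  refine hN.smul_eq (β := k • e i) ?_ ?_ ha hw
  · intro j hj
    have : j ≠ i := fun h' => hj (h' ▸ hi)
    simp [this]
  · rw [add_smul, add_assoc]

theorem mem_sat (h : Grd D ℬ) {i : ι} (hi : i ∈ T) (hN : IsFam ℬ T N) {α : ι → ℕ} {c : B} :
    c ∈ sat ℬ i N α ↔ c ∈ ℬ α ∧ ∃ n : ℕ, ∀ u ∈ ℬ (n • e i), u * c ∈ N (n • e i + α) := by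
  constructor
  · intro hc
    induction hc using Submodule.span_induction with
    | mem x hx => exact hx
    | zero => exact ⟨zero_mem _, 0, by simp⟩
    | add x y _ _ hx hy =>
      obtain ⟨hx0, n, hn⟩ := hx
      obtain ⟨hy0, m, hm⟩ := hy
      refine ⟨add_mem hx0 hy0, max n m, ?_⟩
      intro u hu
      rw [mul_add]
      exact add_mem (sat_up h hi hN hn (le_max_left _ _) u hu)
        (sat_up h hi hN hm (le_max_right _ _) u hu)
    | smul k x _ hx =>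
      obtain ⟨hx0, n, hn⟩ := hx
      refine ⟨Submodule.smul_mem _ _ hx0, n, fun u hu => ?_⟩
      rw [mul_smul_comm]
      exact Submodule.smul_mem _ _ (hn u hu)
  · intro hc
    exact Submodule.subset_span hc

theorem le_sat {i : ι} (hN : IsFam ℬ T N) (α : ι → ℕ) : N α ≤ sat ℬ i N α := by
  intro c hc
  refine Submodule.subset_span ⟨hN.le α hc, 0, fun u hu => ?_⟩
  rw [zero_smul] at hu ⊢
  exact hN.smul_eq (Sup.zero T) rfl hu hc

theorem sat_isFam (h : Grd D ℬ) {i : ι} (hi : i ∈ T) (hN : IsFam ℬ T N) :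
    IsFam ℬ T (sat ℬ i N) := by
  constructor
  · intro α c hc
    exact ((mem_sat h hi hN).1 hc).1
  · intro β hβ α b hb c hc
    obtain ⟨hc0, n, hn⟩ := (mem_sat h hi hN).1 hc
    refine (mem_sat h hi hN).2 ⟨h.mul_mem hb hc0, n, fun u hu => ?_⟩
    have h1 : u * b ∈ ℬ β * ℬ (n • e i) := by
      rw [h.mul, add_comm]
      exact h.mul_mem hu hb
    rw [← mul_assoc]
    refine mul_mul_mem h1 hn ?_
    intro a ha w hw
    refine hN.smul_eq hβ ?_ ha hw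
    abel

theorem sat_uniform (h : Grd D ℬ) {i : ι} (hi : i ∈ T) (hN : IsFam ℬ T N) {α : ι → ℕ}
    {W : Submodule K B} (hfg : W.FG) (hW : W ≤ sat ℬ i N α) :
    ∃ n : ℕ, ∀ w ∈ W, ∀ u ∈ ℬ (n • e i), u * w ∈ N (n • e i + α) := by
  revert hW
  refine Submodule.fg_induction (motive := fun W _ => W ≤ sat ℬ i N α →
    ∃ n : ℕ, ∀ w ∈ W, ∀ u ∈ ℬ (n • e i), u * w ∈ N (n • e i + α)) ?_ ?_ W hfg
  · intro x hx
    obtain ⟨hx0, n, hn⟩ := (mem_sat h hi hN).1 (hx (Submodule.mem_span_singleton_self x))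
    refine ⟨n, fun w hw u hu => ?_⟩
    obtain ⟨k, rfl⟩ := Submodule.mem_span_singleton.1 hw
    rw [mul_smul_comm]
    exact Submodule.smul_mem _ _ (hn u hu)
  · intro W₁ W₂ _ _ h₁ h₂ hle
    obtain ⟨n, hn⟩ := h₁ (le_sup_left.trans hle)
    obtain ⟨m, hm⟩ := h₂ (le_sup_right.trans hle)
    refine ⟨max n m, fun w hw u hu => ?_⟩
    obtain ⟨w₁, hw₁, w₂, hw₂, rfl⟩ := Submodule.mem_sup.1 hw
    rw [mul_add]
    exact add_mem (sat_up h hi hN (hn w₁ hw₁) (le_max_left _ _) u hu)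
      (sat_up h hi hN (hm w₂ hw₂) (le_max_right _ _) u hu)

theorem sat_isSat (h : Grd D ℬ) {i : ι} (hi : i ∈ T) (hN : IsFam ℬ T N) :
    IsSat ℬ i (sat ℬ i N) := by
  intro α c hc hv
  haveI := h.fin (e i)
  have hfg : ((ℬ (e i)).map (LinearMap.mulRight K c)).FG :=
    Submodule.FG.map _ (Module.Finite.iff_fg.1 (h.fin (e i)))
  obtain ⟨n, hn⟩ := sat_uniform h hi hN hfg (α := e i + α) (by
    rintro _ ⟨v, hv', rfl⟩
    exact hv v hv')
  refine (mem_sat h hi hN).2 ⟨hc, n + 1, fun u hu => ?_⟩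
  rw [add_smul, one_smul, ← h.mul] at hu
  refine mul_mul_mem hu (W := (ℬ (e i)).map (LinearMap.mulRight K c)) (fun v hv' => ⟨v, hv', rfl⟩) ?_
  intro a ha w hw
  have := hn w hw a ha
  rwa [add_smul, one_smul, add_assoc]

theorem sat_isCl (h : Grd D ℬ) (hS : Dom ℬ S) (hST : S ⊆ T) {i : ι} (hi : i ∈ T)
    (hN : IsFam ℬ T N) (hcl : IsCl ℬ S N) : IsCl ℬ S (sat ℬ i N) := by
  intro σ hσ s hs hne α c hc hsc
  obtain ⟨_, n, hn⟩ := (mem_sat h hi hN).1 hsc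
  refine (mem_sat h hi hN).2 ⟨hc, n, fun u hu => ?_⟩
  obtain ⟨θ, hθ, t, ht, htne, x, hx, hxe⟩ := h.ore_one hS hσ hs hne hu
  refine hcl (θ + σ) (hθ.add hσ) t ht htne _ _ (h.mul_mem hu hc) ?_
  rw [← mul_assoc, hxe, mul_assoc]
  rw [← h.mul] at hx
  refine mul_mul_mem hx hn ?_
  intro a ha w hw
  refine hN.smul_eq (hθ.mono hST) ?_ ha hw
  abel

theorem cl_uniform (h : Grd D ℬ) (hS : Dom ℬ S) (hN : IsFam ℬ S N) {α : ι → ℕ}
    {W : Submodule K B} (hfg : W.FG) (hW : W ≤ cl ℬ S N α) :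
    ∃ σ, Sup S σ ∧ ∃ s ∈ ℬ σ, s ≠ 0 ∧ ∀ w ∈ W, s * w ∈ N (σ + α) := by
  revert hW
  refine Submodule.fg_induction (motive := fun W _ => W ≤ cl ℬ S N α →
    ∃ σ, Sup S σ ∧ ∃ s ∈ ℬ σ, s ≠ 0 ∧ ∀ w ∈ W, s * w ∈ N (σ + α)) ?_ ?_ W hfg
  · intro x hx
    obtain ⟨hx0, σ, hσ, s, hs, hne, hsx⟩ :=
      (mem_cl h hS hN).1 (hx (Submodule.mem_span_singleton_self x))
    refine ⟨σ, hσ, s, hs, hne, fun w hw => ?_⟩
    obtain ⟨k, rfl⟩ := Submodule.mem_span_singleton.1 hw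
    rw [mul_smul_comm]
    exact Submodule.smul_mem _ _ hsx
  · intro W₁ W₂ _ _ h₁ h₂ hle
    obtain ⟨σ₁, hσ₁, s₁, hs₁, hne₁, hx⟩ := h₁ (le_sup_left.trans hle)
    obtain ⟨σ₂, hσ₂, s₂, hs₂, hne₂, hy⟩ := h₂ (le_sup_right.trans hle)
    obtain ⟨τ₁, τ₂, hτ₁, hτ₂, hτ, u₁, hu₁, u₂, hu₂, hu, hne⟩ :=
      h.common hS hσ₁ hσ₂ hs₁ hs₂ hne₁ hne₂
    refine ⟨τ₁ + σ₁, hτ₁.add hσ₁, u₁ * s₁, h.mul_mem hu₁ hs₁, hne, fun w hw => ?_⟩
    obtain ⟨w₁, hw₁, w₂, hw₂, rfl⟩ := Submodule.mem_sup.1 hw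
    rw [mul_add]
    refine add_mem ?_ ?_
    · rw [mul_assoc]
      exact hN.smul_eq hτ₁ (add_assoc _ _ _).symm hu₁ (hx w₁ hw₁)
    · rw [hu, mul_assoc]
      refine hN.smul_eq hτ₂ ?_ hu₂ (hy w₂ hw₂)
      rw [hτ, add_assoc]

end Run7.h383
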