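import Pool.Agent.Run7.h383.Noeth

/-!
Graded algebras generated by commuting spaces of generators.
-/

set_option linter.unusedSectionVars false
set_option linter.style.haveILetI false

namespace Run7.h383

open Finset Module Filter Topology

variable {K B ι : Type*} [Field K] [Ring B] [Algebra K B] [Fintype ι] [DecidableEq ι]

/-- A lexicographic weight. -/
noncomputable def wt (α : ι → ℕ) : Lex (Fin (Fintype.card ι) → ℕ) :=
  toLex (fun k => α ((Fintype.equivFin ι).symm k))

theorem wt_injective : Function.Injective (wt (ι := ι)) := by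
  intro α β h
  have h1 : (fun k => α ((Fintype.equivFin ι).symm k)) =
      (fun k => β ((Fintype.equivFin ι).symm k)) := toLex.injective h
  funext i
  have := congrFun h1 (Fintype.equivFin ι i)
  simpa using this

theorem wt_add (α β γ : ι → ℕ) (h : wt α < wt β) : wt (γ + α) < wt (γ + β) := by
  have h1 : ∀ α : ι → ℕ, wt (γ + α) = wt γ + wt α := fun _ => rfl
  rw [h1, h1]
  exact add_lt_add_right h _

section Gen

variable (ℬ : (ι → ℕ) → Submodule K B)

/-- The powers homomorphism of the `i`-th space of generators. -/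
def phiHom (i : ι) : Multiplicative ℕ →* Submodule K B := powersHom _ (ℬ (e i))

theorem phiHom_comm (hcomm : ∀ i j, ℬ (e i) * ℬ (e j) = ℬ (e j) * ℬ (e i)) :
    Pairwise fun i j => ∀ x y, Commute (phiHom ℬ i x) (phiHom ℬ j y) := by
  intro i j _ x y
  have h1 : Commute (ℬ (e i)) (ℬ (e j)) := hcomm i j
  exact h1.pow_pow _ _

/-- The product of powers of the spaces of generators. -/
noncomputable def Wm (hcomm : ∀ i j, ℬ (e i) * ℬ (e j) = ℬ (e j) * ℬ (e i)) (α : ι → ℕ) :
    Submodule K B :=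
  MonoidHom.noncommPiCoprod (phiHom ℬ) (phiHom_comm ℬ hcomm)
    (fun i => Multiplicative.ofAdd (α i))

variable (hcomm : ∀ i j, ℬ (e i) * ℬ (e j) = ℬ (e j) * ℬ (e i))

theorem Wm_add (α β : ι → ℕ) : Wm ℬ hcomm (α + β) = Wm ℬ hcomm α * Wm ℬ hcomm β := by
  unfold Wm
  rw [← map_mul]
  rfl

theorem Wm_zero : Wm ℬ hcomm 0 = 1 := by
  unfold Wm
  exact map_one _

theorem Wm_single (i : ι) : Wm ℬ hcomm (e i) = ℬ (e i) := by
  have h1 := MonoidHom.noncommPiCoprod_mulSingle (ϕ := phiHom ℬ)
    (hcomm := phiHom_comm ℬ hcomm) i (Multiplicative.ofAdd 1)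
  have h2 : (fun j => Multiplicative.ofAdd ((e i : ι → ℕ) j)) =
      (Pi.mulSingle i (Multiplicative.ofAdd 1) : ι → Multiplicative ℕ) := by
    funext j
    by_cases hj : j = i
    · subst hj; simp
    · simp [hj]
  unfold Wm
  rw [h2, h1]
  simp [phiHom]

variable [GradedAlgebra ℬ]

theorem Wm_le (α : ι → ℕ) : Wm ℬ hcomm α ≤ ℬ α := by
  have key : ∀ n : ℕ, ∀ α : ι → ℕ, ∑ i, α i = n → Wm ℬ hcomm α ≤ ℬ α := by
    intro n
    induction n with
    | zero =>
      intro α hα
      have h0 : α = 0 := by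
        funext i
        exact (Finset.sum_eq_zero_iff.1 hα) i (Finset.mem_univ i)
      subst h0
      rw [Wm_zero]
      rintro x ⟨k, rfl⟩
      rw [LinearMap.toSpanSingleton_apply, ← Algebra.algebraMap_eq_smul_one]
      exact SetLike.algebraMap_mem_graded ℬ k
    | succ n ih =>
      intro α hα
      obtain ⟨i, hi⟩ : ∃ i, 0 < α i := by
        by_contra hcon
        push Not at hcon
        have : ∑ i, α i = 0 := Finset.sum_eq_zero fun i _ => Nat.le_zero.1 (hcon i)
        omega
      obtain ⟨α', rfl⟩ := exists_shift hi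
      have h1 : ∑ j, α' j = n := by
        have h2 : ∑ j, (e i : ι → ℕ) j = 1 := by
          simp [e]
        simp only [Pi.add_apply, Finset.sum_add_distrib] at hα
        omega
      rw [Wm_add, Wm_single]
      refine Submodule.mul_le.2 fun x hx y hy => ?_
      exact SetLike.mul_mem_graded hx (ih α' h1 hy)
  exact key _ α rfl

theorem Wm_top (hgen : Algebra.adjoin K (⋃ i, (ℬ (e i) : Set B)) = ⊤) (x : B) :
    x ∈ ⨆ α, Wm ℬ hcomm α := by
  have hx : x ∈ Algebra.adjoin K (⋃ i, (ℬ (e i) : Set B)) := by rw [hgen]; trivial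
  induction hx using Algebra.adjoin_induction with
  | mem x hx =>
    obtain ⟨i, hi⟩ := Set.mem_iUnion.1 hx
    refine Submodule.mem_iSup_of_mem (e i) ?_
    rw [Wm_single]
    exact hi
  | algebraMap k =>
    refine Submodule.mem_iSup_of_mem 0 ?_
    rw [Wm_zero]
    exact ⟨k, by rw [LinearMap.toSpanSingleton_apply, ← Algebra.algebraMap_eq_smul_one]⟩
  | add x y _ _ hx hy => exact add_mem hx hy
  | mul x y _ _ hx hy =>
    have h1 : x * y ∈ (⨆ α, Wm ℬ hcomm α) * (⨆ α, Wm ℬ hcomm α) := Submodule.mul_mem_mul hx hy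
    have h2 : (⨆ α, Wm ℬ hcomm α) * (⨆ α, Wm ℬ hcomm α) ≤ ⨆ α, Wm ℬ hcomm α := by
      rw [Submodule.iSup_mul]
      refine iSup_le fun α => ?_
      rw [Submodule.mul_iSup]
      refine iSup_le fun β => ?_
      rw [← Wm_add]
      exact le_iSup (fun α => Wm ℬ hcomm α) (α + β)
    exact h2 h1

theorem le_Wm (hgen : Algebra.adjoin K (⋃ i, (ℬ (e i) : Set B)) = ⊤) (α : ι → ℕ) :
    ℬ α ≤ Wm ℬ hcomm α := by
  intro x hx
  have key : ∀ y ∈ ⨆ α, Wm ℬ hcomm α, (DirectSum.decompose ℬ y α : B) ∈ Wm ℬ hcomm α := by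
    intro y hy
    induction hy using Submodule.iSup_induction' with
    | mem β y hy =>
      by_cases hβ : β = α
      · subst hβ
        rw [DirectSum.decompose_of_mem_same ℬ (Wm_le ℬ hcomm β hy)]
        exact hy
      · rw [DirectSum.decompose_of_mem_ne ℬ (Wm_le ℬ hcomm β hy) hβ]
        exact zero_mem _
    | zero => simp
    | add y z _ _ hy hz =>
      rw [DirectSum.decompose_add, DirectSum.add_apply, Submodule.coe_add]
      exact add_mem hy hz
  have h1 := key x (Wm_top ℬ hcomm hgen x)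
  rwa [DirectSum.decompose_of_mem_same ℬ hx] at h1

include hcomm in
theorem mul_eq_of_gen (hgen : Algebra.adjoin K (⋃ i, (ℬ (e i) : Set B)) = ⊤) (α β : ι → ℕ) :
    ℬ α * ℬ β = ℬ (α + β) := by
  have h1 : ∀ α, ℬ α = Wm ℬ hcomm α := fun α => le_antisymm (le_Wm ℬ hcomm hgen α) (Wm_le ℬ hcomm α)
  rw [h1 α, h1 β, h1 (α + β), Wm_add]

end Gen

theorem part_top (ℬ : (ι → ℕ) → Submodule K B) [GradedAlgebra ℬ] :
    part ℬ (fun _ => True) = ⊤ := by
  classical
  rw [eq_top_iff]
  intro x _
  rw [← DirectSum.sum_support_decompose ℬ x]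
  exact Submodule.sum_mem _ fun α _ => le_part (Q := fun _ => True) trivial
    (DirectSum.decompose ℬ x α).2

theorem low_ind (ℬ : (ι → ℕ) → Submodule K B) [GradedAlgebra ℬ] (α : ι → ℕ) (c : B)
    (hc : c ∈ ℬ α) (hlow : c ∈ low wt ℬ α) : c = 0 := by
  have key : ∀ y ∈ low wt ℬ α, (DirectSum.decompose ℬ y α : B) = 0 := by
    intro y hy
    induction hy using Submodule.span_induction with
    | mem y hy =>
      obtain ⟨β, h1, h2⟩ := hy
      have : β ≠ α := by rintro rfl; exact lt_irrefl _ h1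
      exact DirectSum.decompose_of_mem_ne ℬ h2 this
    | zero => simp
    | add y z _ _ hy hz =>
      rw [DirectSum.decompose_add, DirectSum.add_apply, Submodule.coe_add, hy, hz, add_zero]
    | smul k y _ hy =>
      rw [DirectSum.decompose_smul]
      change k • (DirectSum.decompose ℬ y α : B) = 0
      rw [hy, smul_zero]
  have h1 := key c hlow
  rwa [DirectSum.decompose_of_mem_same ℬ hc] at h1

theorem part_op (ℬ : (ι → ℕ) → Submodule K B) (h : part ℬ (fun _ => True) = ⊤) :
    part (opFam ℬ) (fun _ => True) = ⊤ := by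
  rw [eq_top_iff]
  intro x _
  have h1 : x.unop ∈ part ℬ (fun _ => True) := by rw [h]; trivial
  have key : ∀ y ∈ part ℬ (fun _ => True), MulOpposite.op y ∈ part (opFam ℬ) (fun _ => True) := by
    intro y hy
    induction hy using Submodule.span_induction with
    | mem y hy =>
      obtain ⟨β, h1, h2⟩ := hy
      exact le_part (Q := fun _ => True) trivial (mem_opFam.2 (by simpa using h2) :
        MulOpposite.op y ∈ opFam ℬ β)
    | zero => exact zero_mem _
    | add y z _ _ hy hz => rw [MulOpposite.op_add]; exact add_mem hy hz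
    | smul k y _ hy => rw [MulOpposite.op_smul]; exact Submodule.smul_mem _ _ hy
  exact key _ h1

theorem main {D : Finset ι} (ℬ : (ι → ℕ) → Submodule K B) [GradedAlgebra ℬ]
    (hH : ∀ α, finrank K (ℬ α) = ∏ i ∈ D, (α i + 1))
    (hgen : Algebra.adjoin K (⋃ i, (ℬ (e i) : Set B)) = ⊤)
    (hcomm : ∀ i j, ℬ (e i) * ℬ (e j) = ℬ (e j) * ℬ (e i))
    (hreg : ∀ i ∈ D, ∀ v ∈ ℬ (e i), ∀ w ∈ ℬ (e i), v * w = 0 → v = 0 ∨ w = 0) :
    IsDomain B ∧ IsNoetherianRing B ∧ IsNoetherianRing Bᵐᵒᵖ := by
  have h : Grd D ℬ :=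
    ⟨SetLike.GradedOne.one_mem, mul_eq_of_gen ℬ hcomm hgen, hH, hreg⟩
  have htop := part_top ℬ
  refine ⟨?_, ?_, ?_⟩
  · haveI : NoZeroDivisors B := by
      refine domain_of_dom wt h wt_injective wt_add ?_ htop (low_ind ℬ)
      intro α β a ha b hb hab
      by_cases ha0 : a = 0
      · exact Or.inl ha0
      · exact Or.inr ((h.dom Finset.univ α (fun j hj => absurd (Finset.mem_univ j) hj) a ha ha0
          β b hb).1 hab)
    haveI : Nontrivial B := ⟨1, 0, h.nontrivial⟩
    exact NoZeroDivisors.to_isDomain B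
  · exact noeth_of_pp wt h wt_injective wt_add (R := Finset.univ) Finset.mem_univ
      (pp_all h h.dom _ Finset.univ ∅ (Finset.empty_subset _) rfl) htop
  · exact noeth_of_pp wt h.op wt_injective wt_add (R := Finset.univ) Finset.mem_univ
      (pp_all h.op h.op.dom _ Finset.univ ∅ (Finset.empty_subset _) rfl) (part_op ℬ htop)

end Run7.h383
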