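import Pool.Agent.Run7.h383.Axis

/-!
Independent lists of homogeneous elements, and the counting bound.
-/

set_option linter.unusedSectionVars false
set_option linter.style.haveILetI false

namespace Run7.h383

open Finset Module Filter Topology

variable {K B ι : Type*} [Field K] [Ring B] [Algebra K B] [DecidableEq ι]
variable {D : Finset ι} {ℬ : (ι → ℕ) → Submodule K B}
variable {S T : Finset ι} {N M : (ι → ℕ) → Submodule K B}

theorem sm_smul (h : Grd D ℬ) {β α δ : ι → ℕ} (hβ : Sup T β) {b a : B} (hb : b ∈ ℬ β)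
    (ha : a ∈ sm ℬ T α δ) : b * a ∈ sm ℬ T (β + α) δ := by
  rcases ha with rfl | ⟨γ, h1, h2, h3⟩
  · left; simp
  · exact Or.inr ⟨β + γ, hβ.add h1, by rw [add_assoc, h2], h.mul_mem hb h3⟩

theorem sm_mono (hST : S ⊆ T) (α δ : ι → ℕ) : sm ℬ S α δ ≤ sm ℬ T α δ := by
  rintro a (rfl | ⟨γ, h1, h2, h3⟩)
  · exact zero_mem _
  · exact Or.inr ⟨γ, h1.mono hST, h2, h3⟩

theorem sm_restrict {i : ι} {α δ : ι → ℕ} (hi : α i = δ i) {a : B}
    (ha : a ∈ sm ℬ (insert i S) α δ) : a ∈ sm ℬ S α δ := by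
  rcases ha with rfl | ⟨γ, h1, h2, h3⟩
  · exact zero_mem _
  · refine Or.inr ⟨γ, ?_, h2, h3⟩
    intro j hj
    by_cases hji : j = i
    · subst hji
      have := congrFun h2 j
      simp only [Pi.add_apply] at this
      omega
    · exact h1 j (by simp [hji, hj])

theorem sm_step (h : Grd D ℬ) {i : ι} {α δ : ι → ℕ} (hlt : δ i < (e i + α) i)
    {a : B} (ha : a ∈ sm ℬ T (e i + α) δ) : a ∈ ℬ (e i) * sm ℬ T α δ := by
  rcases ha with rfl | ⟨γ, h1, h2, h3⟩
  · exact zero_mem _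
  · have h4 := congrFun h2 i
    simp only [Pi.add_apply, e_same] at h4 hlt
    obtain ⟨γ', rfl⟩ := exists_shift (i := i) (β := γ) (by omega)
    have h5 : γ' + δ = α := by
      rw [add_assoc] at h2
      exact add_left_cancel h2
    have h6 : Sup T γ' := by
      intro k hk
      have := h1 k hk
      simp only [Pi.add_apply] at this
      omega
    rw [← h.mul] at h3
    have h7 : ℬ γ' ≤ sm ℬ T α δ := fun z hz => Or.inr ⟨γ', h6, h5, hz⟩
    exact mul_le_mul_right h7 _ h3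

theorem sm_homog {α δ : ι → ℕ} {a : B} (ha : a ∈ sm ℬ T α δ) : ∃ β, a ∈ ℬ β := by
  rcases ha with rfl | ⟨γ, _, _, h3⟩
  · exact ⟨0, zero_mem _⟩
  · exact ⟨γ, h3⟩

/-- The family of combinations of a list. -/
def lin (ℬ : (ι → ℕ) → Submodule K B) (T : Finset ι) {m : ℕ} (g : Fin m → B)
    (δ : Fin m → ι → ℕ) : (ι → ℕ) → Submodule K B := fun α =>
  { carrier := {z | ∃ a : Fin m → B, (∀ l, a l ∈ sm ℬ T α (δ l)) ∧ z = ∑ l, a l * g l}
    zero_mem' := ⟨fun _ => 0, fun _ => zero_mem _, by simp⟩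
    add_mem' := by
      rintro z z' ⟨a, ha, rfl⟩ ⟨a', ha', rfl⟩
      refine ⟨fun l => a l + a' l, fun l => add_mem (ha l) (ha' l), ?_⟩
      simp [add_mul, Finset.sum_add_distrib]
    smul_mem' := by
      rintro k z ⟨a, ha, rfl⟩
      refine ⟨fun l => k • a l, fun l => Submodule.smul_mem _ _ (ha l), ?_⟩
      simp [Finset.smul_sum] }

theorem mem_lin {m : ℕ} {g : Fin m → B} {δ : Fin m → ι → ℕ} {α : ι → ℕ} {z : B} :
    z ∈ lin ℬ T g δ α ↔ ∃ a : Fin m → B, (∀ l, a l ∈ sm ℬ T α (δ l)) ∧ z = ∑ l, a l * g l :=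
  Iff.rfl

theorem lin_isFam (h : Grd D ℬ) {m : ℕ} {g : Fin m → B} {δ : Fin m → ι → ℕ}
    (hg : ∀ l, g l ∈ ℬ (δ l)) : IsFam ℬ T (lin ℬ T g δ) := by
  constructor
  · rintro α z ⟨a, ha, rfl⟩
    refine Submodule.sum_mem _ fun l _ => ?_
    rcases ha l with h0 | ⟨γ, _, h2, h3⟩
    · rw [h0, zero_mul]; exact zero_mem _
    · rw [← h2]; exact h.mul_mem h3 (hg l)
  · rintro β hβ α b hb z ⟨a, ha, rfl⟩
    refine ⟨fun l => b * a l, fun l => sm_smul h hβ hb (ha l), ?_⟩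
    simp [Finset.mul_sum, mul_assoc]

theorem sup_isFam (hN : IsFam ℬ T N) (hM : IsFam ℬ T M) :
    IsFam ℬ T (fun α => N α ⊔ M α) := by
  constructor
  · intro α
    exact sup_le (hN.le α) (hM.le α)
  · intro β hβ α b hb c hc
    obtain ⟨c₁, h₁, c₂, h₂, rfl⟩ := Submodule.mem_sup.1 hc
    rw [mul_add]
    exact add_mem (Submodule.mem_sup_left (hN.smul β hβ α b hb _ h₁))
      (Submodule.mem_sup_right (hM.smul β hβ α b hb _ h₂))

theorem lin_mono (hST : S ⊆ T) {m : ℕ} {g : Fin m → B} {δ : Fin m → ι → ℕ} (α : ι → ℕ) :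
    lin ℬ S g δ α ≤ lin ℬ T g δ α := by
  rintro z ⟨a, ha, rfl⟩
  exact ⟨a, fun l => sm_mono hST _ _ (ha l), rfl⟩

/-- Independence of a list modulo a family. -/
def Indep (ℬ : (ι → ℕ) → Submodule K B) (T : Finset ι) {m : ℕ} (g : Fin m → B)
    (δ : Fin m → ι → ℕ) (M : (ι → ℕ) → Submodule K B) : Prop :=
  ∀ α, ∀ a : Fin m → B, (∀ l, a l ∈ sm ℬ T α (δ l)) → ∑ l, a l * g l ∈ M α → ∀ l, a l = 0

theorem Indep.bound (h : Grd D ℬ) {m : ℕ} {g : Fin m → B} {δ : Fin m → ι → ℕ}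
    (hg : ∀ l, g l ∈ ℬ (δ l)) {κ : ι → ℕ} (hrow : ∀ l j, j ∉ T → δ l j = κ j)
    (hind : Indep ℬ T g δ M) : m ≤ grk D T κ := by
  classical
  by_contra hlt
  push Not at hlt
  set κ' : ι → ℕ := fun j => if j ∈ T then 0 else κ j with hκ'
  set σ : Fin m → ι → ℕ := fun l j => if j ∈ T then δ l j else 0 with hσ
  have hσT : ∀ l, Sup T (σ l) := by
    intro l j hj
    simp [hσ, hj]
  have hgrk0 : grk D T (0 : ι → ℕ) = 1 := by
    refine Finset.prod_eq_one fun i _ => ?_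
    split_ifs <;> simp
  have hgrk : grk D T κ' = grk D T κ := by
    refine Finset.prod_congr rfl fun i _ => ?_
    by_cases hi : i ∈ T <;> simp [hi, hκ']
  have key := eventually_dim D T (L := Fin m) (M := Unit) (fun _ => 0) σ (fun _ => κ')
    (fun _ => 0) hσT (fun _ => Sup.zero T) (by simp [hgrk0, hgrk, hlt])
  have key2 : ∀ᶠ n in atTop, ∀ i ∈ T, ∀ l, δ l i ≤ n := by
    rw [Filter.eventually_all_finset]
    intro i _
    rw [Filter.eventually_all]
    intro l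
    exact eventually_ge_atTop _
  obtain ⟨n, hn1, hn2⟩ := (key.and key2).exists
  simp only [Finset.univ_unique, Finset.sum_singleton, tsub_zero, add_zero] at hn1
  set β : Fin m → ι → ℕ := fun l => ind T n - σ l with hβ
  have hβT : ∀ l, Sup T (β l) := by
    intro l j hj
    simp [hβ, ind, hj]
  have hβδ : ∀ l, β l + δ l = ind T n + κ' := by
    intro l
    funext j
    by_cases hj : j ∈ T
    · have := hn2 j hj l
      simp only [hβ, hσ, hκ', ind, hj, Pi.sub_apply, Pi.add_apply, if_true]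
      omega
    · simp [hβ, hσ, hκ', ind, hj, hrow l j hj]
  haveI : ∀ α, Module.Finite K (ℬ α) := h.fin
  let f : (∀ l, ℬ (β l)) →ₗ[K] ℬ (ind T n + κ') :=
    LinearMap.codRestrict _
      (∑ l, (LinearMap.mulRight K (g l)) ∘ₗ (Submodule.subtype (ℬ (β l))) ∘ₗ (LinearMap.proj l))
      (by
        intro a
        rw [LinearMap.sum_apply]
        refine Submodule.sum_mem _ fun l _ => ?_
        have := h.mul_mem (a l).2 (hg l)
        rwa [hβδ l] at this)
  have hf : ∀ a, (f a : B) = ∑ l, (a l : B) * g l := by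
    intro a
    show ((∑ l, (LinearMap.mulRight K (g l)) ∘ₗ (Submodule.subtype (ℬ (β l))) ∘ₗ
      (LinearMap.proj l) : (∀ l, ℬ (β l)) →ₗ[K] B) a) = _
    rw [LinearMap.sum_apply]
    rfl
  have hker : LinearMap.ker f ≠ ⊥ := by
    apply LinearMap.ker_ne_bot_of_finrank_lt
    rw [Module.finrank_pi_fintype]
    simp only [h.rk]
    exact hn1
  obtain ⟨a, hmem, hne⟩ := Submodule.exists_mem_ne_zero_of_ne_bot hker
  apply hne
  have h0 : ∑ l, (a l : B) * g l = 0 := by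
    rw [← hf, LinearMap.mem_ker.1 hmem]
    rfl
  have h1 := hind (ind T n + κ') (fun l => (a l : B))
    (fun l => Or.inr ⟨β l, hβT l, hβδ l, (a l).2⟩) (by rw [h0]; exact zero_mem _)
  funext l
  exact Subtype.ext (h1 l)

/-- Maximal independent lists in a row. -/
structure MaxList (ℬ : (ι → ℕ) → Submodule K B) (S : Finset ι)
    (N M : (ι → ℕ) → Submodule K B) (ρ : ι → ℕ) {m : ℕ} (g : Fin m → B)
    (δ : Fin m → ι → ℕ) : Prop where
  mem : ∀ l, g l ∈ N (δ l)
  row : ∀ l j, j ∉ S → δ l j = ρ j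
  ind : Indep ℬ S g δ M
  max : ∀ α, (∀ j, j ∉ S → α j = ρ j) → ∀ c ∈ N α,
    ∃ σ, Sup S σ ∧ ∃ s ∈ ℬ σ, s ≠ 0 ∧ s * c ∈ lin ℬ S g δ (σ + α) ⊔ M (σ + α)

theorem exists_maxList (h : Grd D ℬ) (S : Finset ι) (hN : ∀ α, N α ≤ ℬ α)
    (M : (ι → ℕ) → Submodule K B) (ρ : ι → ℕ) :
    ∃ (m : ℕ) (g : Fin m → B) (δ : Fin m → ι → ℕ), MaxList ℬ S N M ρ g δ := by
  classical
  let P : ℕ → Prop := fun m => ∃ (g : Fin m → B) (δ : Fin m → ι → ℕ),
    (∀ l, g l ∈ N (δ l)) ∧ (∀ l j, j ∉ S → δ l j = ρ j) ∧ Indep ℬ S g δ M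
  have hP0 : P 0 := ⟨fun l => l.elim0, fun l => l.elim0, fun l => l.elim0, fun l => l.elim0,
    fun _ _ _ _ l => l.elim0⟩
  have hbound : ∀ m, P m → m ≤ grk D S ρ := by
    rintro m ⟨g, δ, h1, h2, h3⟩
    exact h3.bound h (fun l => hN _ (h1 l)) h2
  have hex : ∃ m, P m ∧ ¬ P (m + 1) := by
    by_contra hcon
    push Not at hcon
    have hall : ∀ m, P m := by
      intro m
      induction m with
      | zero => exact hP0
      | succ m ih => exact hcon m ih
    have := hbound _ (hall (grk D S ρ + 1))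
    omega
  obtain ⟨m, ⟨g, δ, h1, h2, h3⟩, hnot⟩ := hex
  refine ⟨m, g, δ, h1, h2, h3, ?_⟩
  intro α hα c hc
  by_contra hcon
  apply hnot
  refine ⟨Fin.cons c g, Fin.cons α δ, ?_, ?_, ?_⟩
  · intro l
    refine Fin.cases ?_ (fun l => ?_) l
    · simpa using hc
    · simpa using h1 l
  · intro l
    refine Fin.cases ?_ (fun l => ?_) l
    · simpa using hα
    · simpa using h2 l
  · intro α' a ha hsum
    rw [Fin.sum_univ_succ] at hsum
    simp only [Fin.cons_zero, Fin.cons_succ] at hsum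
    have ha0 : a 0 ∈ sm ℬ S α' α := by simpa using ha 0
    have has : ∀ l : Fin m, a l.succ ∈ sm ℬ S α' (δ l) := by
      intro l
      simpa using ha l.succ
    by_cases h0 : a 0 = 0
    · rw [h0, zero_mul, zero_add] at hsum
      have h4 := h3 α' (fun l => a l.succ) has hsum
      intro l
      exact Fin.cases h0 h4 l
    · exfalso
      apply hcon
      rcases ha0 with h5 | ⟨σ, h5, h6, h7⟩
      · exact absurd h5 h0
      · refine ⟨σ, h5, a 0, h7, h0, ?_⟩
        rw [h6]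
        refine Submodule.mem_sup.2 ⟨∑ l, (-(a l.succ)) * g l,
          ⟨fun l => -(a l.succ), fun l => neg_mem (has l), rfl⟩, _, hsum, ?_⟩
        simp only [neg_mul, Finset.sum_neg_distrib]
        abel

end Run7.h383
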