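import Pool.Agent.Run7.h383.Domain

/-!
From finiteness of graded families to the noetherian property, by leading forms.
-/

set_option linter.unusedSectionVars false
set_option linter.style.haveILetI false

namespace Run7.h383

open Finset Module Filter Topology

variable {K B ι : Type*} [Field K] [Ring B] [Algebra K B] [DecidableEq ι]
variable {D : Finset ι} {ℬ : (ι → ℕ) → Submodule K B}

section Order

variable {O : Type*} [LinearOrder O] [WellFoundedLT O] (w : (ι → ℕ) → O)

/-- Sums of homogeneous elements of degrees satisfying `Q`. -/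
def part (ℬ : (ι → ℕ) → Submodule K B) (Q : (ι → ℕ) → Prop) : Submodule K B :=
  Submodule.span K {b | ∃ β, Q β ∧ b ∈ ℬ β}

theorem part_mono {Q Q' : (ι → ℕ) → Prop} (hQ : ∀ β, Q β → Q' β) : part ℬ Q ≤ part ℬ Q' := by
  refine Submodule.span_mono ?_
  rintro b ⟨β, h1, h2⟩
  exact ⟨β, hQ β h1, h2⟩

theorem le_part {Q : (ι → ℕ) → Prop} {β : ι → ℕ} (hβ : Q β) : ℬ β ≤ part ℬ Q :=
  fun _ hb => Submodule.subset_span ⟨β, hβ, hb⟩

/-- The part of degree less than `α`. -/
def low (ℬ : (ι → ℕ) → Submodule K B) (α : ι → ℕ) : Submodule K B :=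
  part ℬ (fun β => w β < w α)

theorem part_cases (hw : Function.Injective w) {Q : (ι → ℕ) → Prop} {x : B} (hx : x ∈ part ℬ Q) :
    x = 0 ∨ ∃ α, Q α ∧ ∃ c ∈ ℬ α, x - c ∈ low w ℬ α := by
  induction hx using Submodule.span_induction with
  | mem x hx =>
    obtain ⟨β, h1, h2⟩ := hx
    exact Or.inr ⟨β, h1, x, h2, by rw [sub_self]; exact zero_mem _⟩
  | zero => exact Or.inl rfl
  | add x y _ _ hx hy =>
    rcases hx with rfl | ⟨α, h1, c, h2, h3⟩
    · rwa [zero_add]
    rcases hy with rfl | ⟨α', h1', c', h2', h3'⟩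
    · rw [add_zero]; exact Or.inr ⟨α, h1, c, h2, h3⟩
    right
    rcases lt_trichotomy (w α) (w α') with hlt | heq | hgt
    · refine ⟨α', h1', c', h2', ?_⟩
      have h4 : x + y - c' = (x - c) + c + (y - c') := by abel
      rw [h4]
      refine add_mem (add_mem ?_ ?_) h3'
      · exact part_mono (fun β hβ => lt_trans hβ hlt) h3
      · exact le_part (Q := fun β => w β < w α') hlt h2
    · have := hw heq
      subst this
      refine ⟨α, h1, c + c', add_mem h2 h2', ?_⟩
      have h4 : x + y - (c + c') = (x - c) + (y - c') := by abel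
      rw [h4]
      exact add_mem h3 h3'
    · refine ⟨α, h1, c, h2, ?_⟩
      have h4 : x + y - c = (x - c) + ((y - c') + c') := by abel
      rw [h4]
      refine add_mem h3 (add_mem ?_ ?_)
      · exact part_mono (fun β hβ => lt_trans hβ hgt) h3'
      · exact le_part (Q := fun β => w β < w α) hgt h2'
  | smul k x _ hx =>
    rcases hx with rfl | ⟨α, h1, c, h2, h3⟩
    · left; simp
    · refine Or.inr ⟨α, h1, k • c, Submodule.smul_mem _ _ h2, ?_⟩
      rw [← smul_sub]
      exact Submodule.smul_mem _ _ h3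

theorem mul_low (h : Grd D ℬ) (hadd : ∀ α β γ, w α < w β → w (γ + α) < w (γ + β))
    {γ α : ι → ℕ} {a b : B} (ha : a ∈ ℬ γ) (hb : b ∈ low w ℬ α) : a * b ∈ low w ℬ (γ + α) := by
  induction hb using Submodule.span_induction with
  | mem x hx =>
    obtain ⟨β, h1, h2⟩ := hx
    exact Submodule.subset_span ⟨γ + β, hadd β α γ h1, h.mul_mem ha h2⟩
  | zero => rw [mul_zero]; exact zero_mem _
  | add x y _ _ hx hy => rw [mul_add]; exact add_mem hx hy
  | smul k x _ hx => rw [mul_smul_comm]; exact Submodule.smul_mem _ _ hx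

theorem low_mul (h : Grd D ℬ) (hadd : ∀ α β γ, w α < w β → w (γ + α) < w (γ + β))
    {γ α : ι → ℕ} {a b : B} (ha : a ∈ low w ℬ γ) (hb : b ∈ ℬ α) : a * b ∈ low w ℬ (γ + α) := by
  induction ha using Submodule.span_induction with
  | mem x hx =>
    obtain ⟨β, h1, h2⟩ := hx
    refine Submodule.subset_span ⟨β + α, ?_, h.mul_mem h2 hb⟩
    have := hadd β γ α h1
    rwa [add_comm α β, add_comm α γ] at this
  | zero => rw [zero_mul]; exact zero_mem _
  | add x y _ _ hx hy => rw [add_mul]; exact add_mem hx hy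
  | smul k x _ hx => rw [smul_mul_assoc]; exact Submodule.smul_mem _ _ hx

theorem low_mul_low (h : Grd D ℬ) (hadd : ∀ α β γ, w α < w β → w (γ + α) < w (γ + β))
    {γ α : ι → ℕ} {a b : B} (ha : a ∈ low w ℬ γ) (hb : b ∈ low w ℬ α) :
    a * b ∈ low w ℬ (γ + α) := by
  induction ha using Submodule.span_induction with
  | mem x hx =>
    obtain ⟨β, h1, h2⟩ := hx
    have h3 := mul_low w h hadd h2 hb
    refine part_mono (fun β' hβ' => lt_trans hβ' ?_) h3
    have := hadd β γ α h1
    rwa [add_comm α β, add_comm α γ] at this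
  | zero => rw [zero_mul]; exact zero_mem _
  | add x y _ _ hx hy => rw [add_mul]; exact add_mem hx hy
  | smul k x _ hx => rw [smul_mul_assoc]; exact Submodule.smul_mem _ _ hx

/-- Leading forms of elements of a left ideal. -/
def lead (ℬ : (ι → ℕ) → Submodule K B) (I : Submodule B B) : (ι → ℕ) → Submodule K B := fun α =>
  { carrier := {c | c ∈ ℬ α ∧ ∃ b ∈ I, b - c ∈ low w ℬ α}
    zero_mem' := ⟨zero_mem _, 0, zero_mem _, by simp⟩
    add_mem' := by
      rintro c c' ⟨h1, b, h2, h3⟩ ⟨h1', b', h2', h3'⟩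
      refine ⟨add_mem h1 h1', b + b', add_mem h2 h2', ?_⟩
      rw [add_sub_add_comm]
      exact add_mem h3 h3'
    smul_mem' := by
      rintro k c ⟨h1, b, h2, h3⟩
      refine ⟨Submodule.smul_mem _ _ h1, (algebraMap K B k) * b, I.smul_mem _ h2, ?_⟩
      rw [← Algebra.smul_def, ← smul_sub]
      exact Submodule.smul_mem _ _ h3 }

theorem mem_lead {I : Submodule B B} {α : ι → ℕ} {c : B} :
    c ∈ lead w ℬ I α ↔ c ∈ ℬ α ∧ ∃ b ∈ I, b - c ∈ low w ℬ α := Iff.rfl

theorem lead_isFam (h : Grd D ℬ) (hadd : ∀ α β γ, w α < w β → w (γ + α) < w (γ + β))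
    (I : Submodule B B) (T : Finset ι) : IsFam ℬ T (lead w ℬ I) := by
  constructor
  · intro α c hc
    exact hc.1
  · rintro β _ α b hb c ⟨h1, x, h2, h3⟩
    refine ⟨h.mul_mem hb h1, b * x, I.smul_mem b h2, ?_⟩
    rw [← mul_sub]
    exact mul_low w h hadd hb h3

theorem isCl_empty (h : Grd D ℬ) (N : (ι → ℕ) → Submodule K B) : IsCl ℬ ∅ N := by
  intro σ hσ s hs hne α c hc hsc
  have h0 : σ = 0 := funext fun i => hσ i (by simp)
  subst h0
  obtain ⟨k, rfl⟩ := h.scalar hs
  have hk : k ≠ 0 := by rintro rfl; exact hne (map_zero _)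
  rw [zero_add, ← Algebra.smul_def] at hsc
  have := (N α).smul_mem k⁻¹ hsc
  rwa [smul_smul, inv_mul_cancel₀ hk, one_smul] at this

theorem lead_fg (h : Grd D ℬ) (hadd : ∀ α β γ, w α < w β → w (γ + α) < w (γ + β))
    (I : Submodule B B) (δ : ι → ℕ) :
    ∃ T : Finset B, (T : Set B) ⊆ I ∧ ∀ J : Submodule B B, (T : Set B) ⊆ J →
      lead w ℬ I δ ≤ lead w ℬ J δ := by
  classical
  haveI := h.fin δ
  haveI : Module.Finite K (lead w ℬ I δ) :=
    Submodule.finiteDimensional_of_le ((lead_isFam w h hadd I ∅).le δ)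
  obtain ⟨U, hU⟩ := Module.Finite.iff_fg.1 this
  have hUmem : ∀ u ∈ U, u ∈ lead w ℬ I δ := by
    intro u hu
    rw [← hU]
    exact Submodule.subset_span hu
  have hex : ∀ u : U, ∃ b ∈ I, b - (u : B) ∈ low w ℬ δ := fun u => (hUmem u u.2).2
  choose f hf hf' using hex
  refine ⟨Finset.univ.image f, ?_, ?_⟩
  · intro b hb
    simp only [Finset.coe_image, Finset.coe_univ, Set.image_univ, Set.mem_range] at hb
    obtain ⟨u, rfl⟩ := hb
    exact hf u
  · intro J hJ
    rw [← hU]
    refine Submodule.span_le.2 ?_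
    intro u hu
    refine ⟨(hUmem u hu).1, f ⟨u, hu⟩, hJ ?_, hf' ⟨u, hu⟩⟩
    simp

theorem noeth_of_pp (h : Grd D ℬ) (hw : Function.Injective w)
    (hadd : ∀ α β γ, w α < w β → w (γ + α) < w (γ + β)) {R : Finset ι} (hR : ∀ i, i ∈ R)
    (hP : PP ℬ R ∅) (htop : part ℬ (fun _ => True) = ⊤) : IsNoetherianRing B := by
  classical
  rw [isNoetherianRing_iff, isNoetherian_def]
  intro I
  obtain ⟨𝔇, h𝔇⟩ := hP (lead w ℬ I) (lead_isFam w h hadd I R) 0
  have hex := fun δ : ι → ℕ => lead_fg w h hadd I δ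
  choose T hT hT' using hex
  set J : Submodule B B := Submodule.span B (𝔇.biUnion T : Finset B) with hJ
  have hJI : J ≤ I := by
    refine Submodule.span_le.2 ?_
    intro b hb
    obtain ⟨δ, _, hb'⟩ := Finset.mem_biUnion.1 (Finset.mem_coe.1 hb)
    exact hT δ hb'
  have hlead : ∀ α, lead w ℬ I α ≤ lead w ℬ J α := by
    intro α
    refine h𝔇 (lead w ℬ J) (lead_isFam w h hadd J R) (isCl_empty h _) ?_ α
      (fun j hj => absurd (hR j) hj)
    intro δ hδ
    refine hT' δ J ?_
    intro b hb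
    exact Submodule.subset_span (Finset.mem_coe.2 (Finset.mem_biUnion.2 ⟨δ, hδ, hb⟩))
  have key : ∀ o : O, ∀ α, w α = o → ∀ b ∈ I, (∃ c ∈ ℬ α, b - c ∈ low w ℬ α) → b ∈ J := by
    intro o
    induction o using WellFoundedLT.induction with
    | ind o ih =>
      rintro α rfl b hb ⟨c, hc, hbc⟩
      obtain ⟨_, x, hx, hxc⟩ := hlead α ⟨hc, b, hb, hbc⟩
      have h1 : b - x ∈ low w ℬ α := by
        have : b - x = (b - c) - (x - c) := by abel
        rw [this]
        exact sub_mem hbc hxc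
      have h2 : b - x ∈ J := by
        rcases part_cases w hw h1 with h3 | ⟨α', h3, c', h4, h5⟩
        · rw [h3]; exact zero_mem _
        · exact ih (w α') h3 α' rfl (b - x) (sub_mem hb (hJI hx)) ⟨c', h4, h5⟩
      have h3 : b = (b - x) + x := by abel
      rw [h3]
      exact add_mem h2 hx
  have hIJ : I = J := by
    refine le_antisymm ?_ hJI
    intro b hb
    have h1 : b ∈ part ℬ (fun _ => True) := by rw [htop]; trivial
    rcases part_cases w hw h1 with rfl | ⟨α, _, c, h4, h5⟩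
    · exact zero_mem _
    · exact key (w α) α rfl b hb ⟨c, h4, h5⟩
  rw [hIJ]
  exact ⟨𝔇.biUnion T, rfl⟩

/-- Nonzero elements have a nonzero leading form. -/
theorem exists_lead (hw : Function.Injective w) (htop : part ℬ (fun _ => True) = ⊤) {b : B}
    (hb : b ≠ 0) : ∃ α, ∃ c ∈ ℬ α, c ≠ 0 ∧ b - c ∈ low w ℬ α := by
  have key : ∀ o : O, ∀ α, w α = o → (∃ c ∈ ℬ α, b - c ∈ low w ℬ α) →
      ∃ α, ∃ c ∈ ℬ α, c ≠ 0 ∧ b - c ∈ low w ℬ α := by
    intro o
    induction o using WellFoundedLT.induction with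
    | ind o ih =>
      rintro α rfl ⟨c, hc, hbc⟩
      by_cases hc0 : c = 0
      · subst hc0
        rw [sub_zero] at hbc
        rcases part_cases w hw hbc with h3 | ⟨α', h3, c', h4, h5⟩
        · exact absurd h3 hb
        · exact ih (w α') h3 α' rfl ⟨c', h4, h5⟩
      · exact ⟨α, c, hc, hc0, hbc⟩
  have h1 : b ∈ part ℬ (fun _ => True) := by rw [htop]; trivial
  rcases part_cases w hw h1 with h2 | ⟨α, _, c, h4, h5⟩
  · exact absurd h2 hb
  · exact key (w α) α rfl ⟨c, h4, h5⟩

theorem domain_of_dom (h : Grd D ℬ) (hw : Function.Injective w)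
    (hadd : ∀ α β γ, w α < w β → w (γ + α) < w (γ + β))
    (hdom : ∀ α β, ∀ a ∈ ℬ α, ∀ b ∈ ℬ β, a * b = 0 → a = 0 ∨ b = 0)
    (htop : part ℬ (fun _ => True) = ⊤) (hind : ∀ α, ∀ c ∈ ℬ α, c ∈ low w ℬ α → c = 0) :
    NoZeroDivisors B := by
  constructor
  intro a b hab
  by_contra hcon
  push Not at hcon
  obtain ⟨ha, hb⟩ := hcon
  obtain ⟨α, c, hc, hc0, hac⟩ := exists_lead w hw htop ha
  obtain ⟨β, d, hd, hd0, hbd⟩ := exists_lead w hw htop hb
  have h1 : c * d ∈ low w ℬ (α + β) := by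
    have h2 : c * d = -(c * (b - d) + (a - c) * d + (a - c) * (b - d)) := by
      have : a * b = 0 := hab
      have h3 : c * d = a * b - (c * (b - d) + (a - c) * d + (a - c) * (b - d)) := by
        noncomm_ring
      rw [h3, this, zero_sub]
    rw [h2]
    exact neg_mem (add_mem (add_mem (mul_low w h hadd hc hbd) (low_mul w h hadd hac hd))
      (low_mul_low w h hadd hac hbd))
  rcases hdom α β c hc d hd (hind _ _ (h.mul_mem hc hd) h1) with h2 | h2
  · exact hc0 h2
  · exact hd0 h2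

end Order

end Run7.h383
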