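import Pool.Agent.Run7.h383.Basic

/-!
Ore conditions from dimension counts.
-/

set_option linter.unusedSectionVars false
set_option linter.style.haveILetI false

namespace Run7.h383

open Finset Module Filter Topology

variable {K B ι : Type*} [Field K] [Ring B] [Algebra K B] [DecidableEq ι]
variable {D : Finset ι} {ℬ : (ι → ℕ) → Submodule K B}

/-- Elements of degree `α - δ`, provided this makes sense and is supported in `T`. -/
def sm (ℬ : (ι → ℕ) → Submodule K B) (T : Finset ι) (α δ : ι → ℕ) : Submodule K B where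
  carrier := {a | a = 0 ∨ ∃ β, Sup T β ∧ β + δ = α ∧ a ∈ ℬ β}
  zero_mem' := Or.inl rfl
  add_mem' := by
    rintro a b (rfl | ⟨β, h1, h2, h3⟩) hb
    · simpa using hb
    · rcases hb with (rfl | ⟨β', h1', h2', h3'⟩)
      · exact Or.inr ⟨β, h1, h2, by simpa using h3⟩
      · right
        have : β' = β := add_right_cancel (h2'.trans h2.symm)
        subst this
        exact ⟨β', h1, h2, add_mem h3 h3'⟩
  smul_mem' := by
    rintro k a (rfl | ⟨β, h1, h2, h3⟩)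
    · left; simp
    · exact Or.inr ⟨β, h1, h2, Submodule.smul_mem _ _ h3⟩

theorem mem_sm {T : Finset ι} {α δ : ι → ℕ} {a : B} :
    a ∈ sm ℬ T α δ ↔ a = 0 ∨ ∃ β, Sup T β ∧ β + δ = α ∧ a ∈ ℬ β := Iff.rfl

theorem mem_sm_of {T : Finset ι} {β δ : ι → ℕ} {a : B} (h : Sup T β) (ha : a ∈ ℬ β) :
    a ∈ sm ℬ T (β + δ) δ := Or.inr ⟨β, h, rfl, ha⟩

/-- Homogeneous elements supported in `S` are regular on both sides. -/
def Dom (ℬ : (ι → ℕ) → Submodule K B) (S : Finset ι) : Prop :=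
  ∀ σ, Sup S σ → ∀ s ∈ ℬ σ, s ≠ 0 → ∀ β, ∀ b ∈ ℬ β, (s * b = 0 → b = 0) ∧ (b * s = 0 → b = 0)

theorem Grd.mul_mem (h : Grd D ℬ) {α β : ι → ℕ} {a b : B} (ha : a ∈ ℬ α) (hb : b ∈ ℬ β) :
    a * b ∈ ℬ (α + β) := by
  rw [← h.mul]; exact Submodule.mul_mem_mul ha hb

theorem Grd.fin (h : Grd D ℬ) (α : ι → ℕ) : Module.Finite K (ℬ α) :=
  finite_of_finrank_pos (by rw [h.rk]; exact hd_pos D α)

theorem Grd.ne_bot (h : Grd D ℬ) (α : ι → ℕ) : ∃ a ∈ ℬ α, a ≠ 0 := by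
  have h1 : 0 < finrank K (ℬ α) := by rw [h.rk]; exact hd_pos D α
  haveI := Module.nontrivial_of_finrank_pos h1
  obtain ⟨⟨a, ha⟩, hne⟩ := exists_ne (0 : ℬ α)
  exact ⟨a, ha, fun h0 => hne (Subtype.ext h0)⟩

theorem Grd.nontrivial (h : Grd D ℬ) : (1 : B) ≠ 0 := by
  intro h1
  obtain ⟨a, -, ha⟩ := h.ne_bot 0
  exact ha (by rw [← mul_one a, h1, mul_zero])

/-- The degree zero part consists of scalars. -/
theorem Grd.scalar (h : Grd D ℬ) {a : B} (ha : a ∈ ℬ 0) : ∃ k : K, a = algebraMap K B k := by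
  haveI := h.fin 0
  have h1 : finrank K (ℬ 0) = 1 := by rw [h.rk]; simp [hd]
  have h2 : (⟨1, h.one⟩ : ℬ 0) ≠ 0 := fun h0 => h.nontrivial (congrArg Subtype.val h0)
  obtain ⟨k, hk⟩ := (finrank_eq_one_iff_of_nonzero' _ h2).1 h1 ⟨a, ha⟩
  refine ⟨k, ?_⟩
  have := congrArg Subtype.val hk
  simp only [SetLike.val_smul] at this
  rw [← this, Algebra.algebraMap_eq_smul_one]

theorem Grd.dom_empty (h : Grd D ℬ) : Dom ℬ (∅ : Finset ι) := by
  intro σ hσ s hs hne β b _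
  have h0 : σ = 0 := funext fun i => hσ i (by simp)
  subst h0
  obtain ⟨k, rfl⟩ := h.scalar hs
  have hk : k ≠ 0 := by rintro rfl; exact hne (map_zero _)
  constructor
  · intro h1
    rw [← Algebra.smul_def] at h1
    rcases smul_eq_zero.1 h1 with h2 | h2
    · exact absurd h2 hk
    · exact h2
  · intro h1
    rw [← Algebra.commutes, ← Algebra.smul_def] at h1
    rcases smul_eq_zero.1 h1 with h2 | h2
    · exact absurd h2 hk
    · exact h2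

/-- General left Ore statement: finitely many elements `c l` and one element `g` which is
right regular on the relevant degrees. -/
theorem Grd.ore (h : Grd D ℬ) {L : Type*} [Fintype L] {T : Finset ι} {δ : ι → ℕ} (hδ : Sup T δ)
    {g : B} (hg : g ∈ ℬ δ) (β : L → ι → ℕ) (c : L → B) (hc : ∀ l, c l ∈ ℬ (β l))
    (hreg : ∀ l η, (∀ j, j ∉ T → η j = β l j) → ∀ x ∈ ℬ η, x * g = 0 → x = 0) :
    ∃ θ, Sup T θ ∧ ∃ t ∈ ℬ (θ + δ), t ≠ 0 ∧ ∀ l, ∃ x ∈ ℬ (θ + β l), t * c l = x * g := by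
  classical
  have key := eventually_dim D T (L := Option L) (M := L)
    (fun o => o.elim 0 β) (fun o => o.elim 0 (fun _ => δ)) β (fun _ => 0)
    (by rintro (_ | l); exacts [Sup.zero T, hδ]) (fun _ => Sup.zero T)
    (by
      rw [Fintype.sum_option]
      have : 0 < grk D T (0 : ι → ℕ) := Finset.prod_pos fun i _ => by split_ifs <;> simp
      simp only [Option.elim]
      omega)
  -- choose n large
  have key2 : ∀ᶠ n in atTop, ∀ i ∈ T, δ i ≤ n := by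
    rw [Filter.eventually_all_finset]
    intro i _
    exact eventually_ge_atTop _
  obtain ⟨n, hn1, hn2⟩ := (key.and key2).exists
  rw [Fintype.sum_option] at hn1
  simp only [Option.elim] at hn1
  set θ : ι → ℕ := ind T n - δ with hθ
  have hθT : Sup T θ := by
    intro i hi
    simp [hθ, ind, hi]
  have hθδ : ind T n = θ + δ := by
    funext i
    by_cases hi : i ∈ T
    · have := hn2 i hi
      simp only [hθ, ind, hi, Pi.sub_apply, Pi.add_apply, if_true]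
      omega
    · simp [hθ, ind, hi, hδ i hi]
  have e1 : ind T n + 0 - 0 = θ + δ := by rw [add_zero, tsub_zero, hθδ]
  have e2 : ∀ l, ind T n + β l - δ = θ + β l := by
    intro l
    rw [hθδ, add_right_comm, add_tsub_cancel_right]
  have e3 : ∀ l, ind T n + β l - 0 = θ + δ + β l := by
    intro l
    rw [tsub_zero, hθδ]
  simp only [e1, e2, e3] at hn1
  haveI : ∀ α, Module.Finite K (ℬ α) := h.fin
  let f : (ℬ (θ + δ)) × (∀ l, ℬ (θ + β l)) →ₗ[K] (∀ l, ℬ (θ + δ + β l)) :=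
    LinearMap.pi fun l => LinearMap.codRestrict _
      ((LinearMap.mulRight K (c l)) ∘ₗ (Submodule.subtype _) ∘ₗ (LinearMap.fst K _ _) -
       (LinearMap.mulRight K g) ∘ₗ (Submodule.subtype _) ∘ₗ (LinearMap.proj l) ∘ₗ
         (LinearMap.snd K (ℬ (θ + δ)) (∀ l, ℬ (θ + β l))))
      (by
        rintro ⟨t, x⟩
        refine Submodule.sub_mem _ (h.mul_mem t.2 (hc l)) ?_
        have := h.mul_mem (x l).2 hg
        rwa [add_right_comm] at this)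
  have hker : LinearMap.ker f ≠ ⊥ := by
    apply LinearMap.ker_ne_bot_of_finrank_lt
    rw [Module.finrank_prod, Module.finrank_pi_fintype, Module.finrank_pi_fintype]
    simp only [h.rk]
    exact hn1
  obtain ⟨⟨t, x⟩, hmem, hne⟩ := Submodule.exists_mem_ne_zero_of_ne_bot hker
  have heq : ∀ l, (t : B) * c l = (x l : B) * g := by
    intro l
    have h1 := congrFun (LinearMap.mem_ker.1 hmem) l
    have h2 := congrArg Subtype.val h1
    simpa [f, sub_eq_zero] using h2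
  refine ⟨θ, hθT, t, t.2, ?_, fun l => ⟨x l, (x l).2, heq l⟩⟩
  intro ht
  apply hne
  have hx : x = 0 := by
    funext l
    apply Subtype.ext
    refine hreg l (θ + β l) (fun j hj => by simp [hθT j hj]) _ (x l).2 ?_
    rw [← heq l, ht, zero_mul]
  rw [hx, Subtype.ext (a1 := t) (a2 := 0) ht]
  rfl

/-- Left Ore condition for nonzero homogeneous elements supported in `S`. -/
theorem Grd.ore_dom (h : Grd D ℬ) {S : Finset ι} (hS : Dom ℬ S) {L : Type*} [Fintype L]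
    {σ : ι → ℕ} (hσ : Sup S σ) {s : B} (hs : s ∈ ℬ σ) (hne : s ≠ 0) (β : L → ι → ℕ) (c : L → B)
    (hc : ∀ l, c l ∈ ℬ (β l)) :
    ∃ θ, Sup S θ ∧ ∃ t ∈ ℬ (θ + σ), t ≠ 0 ∧ ∀ l, ∃ x ∈ ℬ (θ + β l), t * c l = x * s :=
  h.ore hσ hs β c hc fun _ η _ x hx => (hS σ hσ s hs hne η x hx).2

theorem Grd.ore_one (h : Grd D ℬ) {S : Finset ι} (hS : Dom ℬ S)
    {σ : ι → ℕ} (hσ : Sup S σ) {s : B} (hs : s ∈ ℬ σ) (hne : s ≠ 0) {β : ι → ℕ} {c : B}
    (hc : c ∈ ℬ β) :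
    ∃ θ, Sup S θ ∧ ∃ t ∈ ℬ (θ + σ), t ≠ 0 ∧ ∃ x ∈ ℬ (θ + β), t * c = x * s := by
  obtain ⟨θ, h1, t, h2, h3, h4⟩ := h.ore_dom hS hσ hs hne (L := Unit) (fun _ => β) (fun _ => c)
    (fun _ => hc)
  exact ⟨θ, h1, t, h2, h3, h4 ()⟩

theorem Grd.ore_two (h : Grd D ℬ) {S : Finset ι} (hS : Dom ℬ S)
    {σ : ι → ℕ} (hσ : Sup S σ) {s : B} (hs : s ∈ ℬ σ) (hne : s ≠ 0) {β : ι → ℕ} {c d : B}
    (hc : c ∈ ℬ β) (hd : d ∈ ℬ β) :
    ∃ θ, Sup S θ ∧ ∃ t ∈ ℬ (θ + σ), t ≠ 0 ∧ ∃ x ∈ ℬ (θ + β), ∃ y ∈ ℬ (θ + β),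
      t * c = x * s ∧ t * d = y * s := by
  obtain ⟨θ, h1, t, h2, h3, h4⟩ := h.ore_dom hS hσ hs hne (L := Bool) (fun _ => β)
    (fun b => cond b c d) (fun b => by cases b; exacts [hd, hc])
  obtain ⟨x, hx, hx'⟩ := h4 true
  obtain ⟨y, hy, hy'⟩ := h4 false
  exact ⟨θ, h1, t, h2, h3, x, hx, y, hy, hx', hy'⟩

/-- Common left multiples of nonzero homogeneous elements supported in `S`. -/
theorem Grd.common (h : Grd D ℬ) {S : Finset ι} (hS : Dom ℬ S)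
    {σ₁ σ₂ : ι → ℕ} (hσ₁ : Sup S σ₁) (hσ₂ : Sup S σ₂) {s₁ s₂ : B} (hs₁ : s₁ ∈ ℬ σ₁)
    (hs₂ : s₂ ∈ ℬ σ₂) (hne₁ : s₁ ≠ 0) (hne₂ : s₂ ≠ 0) :
    ∃ τ₁ τ₂, Sup S τ₁ ∧ Sup S τ₂ ∧ τ₁ + σ₁ = τ₂ + σ₂ ∧ ∃ u₁ ∈ ℬ τ₁, ∃ u₂ ∈ ℬ τ₂,
      u₁ * s₁ = u₂ * s₂ ∧ u₁ * s₁ ≠ 0 := by
  obtain ⟨θ, h1, t, h2, h3, x, h4, h5⟩ := h.ore_one hS hσ₂ hs₂ hne₂ hs₁
  refine ⟨θ + σ₂, θ + σ₁, h1.add hσ₂, h1.add hσ₁, by rw [add_right_comm], t, h2, x, h4, h5, ?_⟩
  intro h6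
  exact h3 ((hS σ₁ hσ₁ s₁ hs₁ hne₁ _ t h2).2 h6)

end Run7.h383
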