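import Pool.Agent.Run7.h383.Core

/-!
Finiteness of families by induction over pairs of sets of directions.
-/

set_option linter.unusedSectionVars false
set_option linter.style.haveILetI false

namespace Run7.h383

open Finset Module Filter Topology

variable {K B ι : Type*} [Field K] [Ring B] [Algebra K B] [DecidableEq ι]
variable {D : Finset ι} {ℬ : (ι → ℕ) → Submodule K B}
variable {R S : Finset ι} {i : ι} {N M : (ι → ℕ) → Submodule K B}

/-- Finiteness of `N` on the row of `κ`, over the directions `R` and up to closure by `S`. -/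
def FinOn (ℬ : (ι → ℕ) → Submodule K B) (R S : Finset ι)
    (N : (ι → ℕ) → Submodule K B) (κ : ι → ℕ) : Prop :=
  ∃ 𝔇 : Finset (ι → ℕ), ∀ M, IsFam ℬ R M → IsCl ℬ S M → (∀ δ ∈ 𝔇, N δ ≤ M δ) →
    ∀ α, (∀ j, j ∉ R → α j = κ j) → N α ≤ M α

/-- All families are finite on all rows. -/
def PP (ℬ : (ι → ℕ) → Submodule K B) (R S : Finset ι) : Prop :=
  ∀ N, IsFam ℬ R N → ∀ κ, FinOn ℬ R S N κ

theorem pp_base (h : Grd D ℬ) (R : Finset ι) : PP ℬ R R := by
  classical
  intro N hN κ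
  obtain ⟨m, g, δ, hg⟩ := exists_maxList h R hN.le (fun _ => ⊥) κ
  refine ⟨Finset.univ.image δ, fun M hM hMcl hle α hα c hc => ?_⟩
  obtain ⟨σ, hσ, s, hs, hne, hsc⟩ := hg.max α hα c hc
  rw [sup_bot_eq] at hsc
  obtain ⟨a, ha, hsum⟩ := hsc
  refine hMcl σ hσ s hs hne α c (hN.le α hc) ?_
  rw [hsum]
  refine Submodule.sum_mem _ fun l _ => hM.sm_mul (ha l) ?_
  exact hle (δ l) (Finset.mem_image_of_mem δ (Finset.mem_univ l)) (hg.mem l)

theorem finOn_of_cl (h : Grd D ℬ) (hS : Dom ℬ S) (hSR : S ⊆ R) (hN : IsFam ℬ R N) {κ : ι → ℕ}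
    (hfin : FinOn ℬ R S (cl ℬ S N) κ) : FinOn ℬ R S N κ := by
  classical
  obtain ⟨𝔇, h𝔇⟩ := hfin
  have hN' := hN.mono hSR
  have hex : ∀ δ : ι → ℕ, ∃ σ, Sup S σ ∧ ∃ s ∈ ℬ σ, s ≠ 0 ∧
      ∀ w ∈ cl ℬ S N δ, s * w ∈ N (σ + δ) := by
    intro δ
    refine cl_uniform h hS hN' ?_ le_rfl
    haveI := h.fin δ
    haveI : Module.Finite K (cl ℬ S N δ) :=
      Submodule.finiteDimensional_of_le ((cl_isFam h hS hSR hN).le δ)
    exact Module.Finite.iff_fg.1 this
  choose σ hσ s hs hne hsw using hex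
  refine ⟨𝔇.image (fun δ => σ δ + δ), fun M hM hMcl hle α hα => ?_⟩
  refine (le_cl h hN α).trans (h𝔇 M hM hMcl ?_ α hα)
  intro δ hδ w hw
  refine hMcl (σ δ) (hσ δ) (s δ) (hs δ) (hne δ) δ w ((cl_isFam h hS hSR hN).le δ hw) ?_
  exact hle _ (Finset.mem_image_of_mem (fun δ => σ δ + δ) hδ) (hsw δ w hw)

/-- The colon family used in the saturation step. -/
def colon (ℬ : (ι → ℕ) → Submodule K B) (R : Finset ι) (i : ι) (k : ℕ)
    (M : (ι → ℕ) → Submodule K B) : (ι → ℕ) → Submodule K B := fun α =>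
  { carrier := {b | b ∈ ℬ α ∧ ∀ β, Sup R β → k ≤ α i + β i → ∀ u ∈ ℬ β, u * b ∈ M (β + α)}
    zero_mem' := ⟨zero_mem _, fun β _ _ u _ => by simp⟩
    add_mem' := by
      rintro b b' ⟨h1, h2⟩ ⟨h1', h2'⟩
      refine ⟨add_mem h1 h1', fun β hβ hk u hu => ?_⟩
      rw [mul_add]
      exact add_mem (h2 β hβ hk u hu) (h2' β hβ hk u hu)
    smul_mem' := by
      rintro c b ⟨h1, h2⟩
      refine ⟨Submodule.smul_mem _ _ h1, fun β hβ hk u hu => ?_⟩
      rw [mul_smul_comm]
      exact Submodule.smul_mem _ _ (h2 β hβ hk u hu) }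

theorem mem_colon {k : ℕ} {α : ι → ℕ} {b : B} : b ∈ colon ℬ R i k M α ↔
    b ∈ ℬ α ∧ ∀ β, Sup R β → k ≤ α i + β i → ∀ u ∈ ℬ β, u * b ∈ M (β + α) := Iff.rfl

theorem colon_isFam (h : Grd D ℬ) (k : ℕ) : IsFam ℬ R (colon ℬ R i k M) := by
  constructor
  · intro α b hb
    exact hb.1
  · rintro γ hγ α c hc b ⟨h1, h2⟩
    refine ⟨h.mul_mem hc h1, fun β hβ hk u hu => ?_⟩
    rw [← mul_assoc]
    have := h2 (β + γ) (hβ.add hγ) (by
      simp only [Pi.add_apply] at hk ⊢
      omega) (u * c) (h.mul_mem hu hc)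
    rwa [add_assoc] at this

theorem colon_isCl (h : Grd D ℬ) (hS : Dom ℬ S) (hSR : S ⊆ R) (hMcl : IsCl ℬ S M) (k : ℕ) :
    IsCl ℬ S (colon ℬ R i k M) := by
  rintro σ hσ s hs hne α c hc ⟨h1, h2⟩
  refine ⟨hc, fun β hβ hk u hu => ?_⟩
  obtain ⟨θ, hθ, t, ht, htne, x, hx, hxe⟩ := h.ore_one hS hσ hs hne hu
  refine hMcl (θ + σ) (hθ.add hσ) t ht htne _ _ (h.mul_mem hu hc) ?_
  rw [← mul_assoc, hxe, mul_assoc]
  have := h2 (θ + β) ((hθ.mono hSR).add hβ) (by
    simp only [Pi.add_apply]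
    omega) x hx
  have hdeg : θ + β + (σ + α) = θ + σ + (β + α) := by abel
  rwa [hdeg] at this

theorem finOn_of_sat (h : Grd D ℬ) (hS : Dom ℬ S) (hSR : S ⊆ R) (hiR : i ∈ R)
    (hN : IsFam ℬ R N) (hrows : PP ℬ (R.erase i) S) {κ : ι → ℕ}
    (hfin : FinOn ℬ R S (sat ℬ i N) κ) : FinOn ℬ R S N κ := by
  classical
  obtain ⟨𝔇, h𝔇⟩ := hfin
  have hsatfam := sat_isFam h hiR hN
  have hex : ∀ δ : ι → ℕ, ∃ n : ℕ, ∀ w ∈ sat ℬ i N δ, ∀ u ∈ ℬ (n • e i),
      u * w ∈ N (n • e i + δ) := by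
    intro δ
    refine sat_uniform h hiR hN ?_ le_rfl
    haveI := h.fin δ
    haveI : Module.Finite K (sat ℬ i N δ) := Submodule.finiteDimensional_of_le (hsatfam.le δ)
    exact Module.Finite.iff_fg.1 this
  choose n₀ hn₀ using hex
  set n : ℕ := 𝔇.sup n₀ with hn
  set k : ℕ := n + 𝔇.sup (fun δ => δ i) with hk
  have hrow : ∀ k' : ℕ, FinOn ℬ (R.erase i) S N (Function.update κ i k') := fun k' =>
    hrows N (hN.mono (Finset.erase_subset _ _)) _
  choose 𝔈 h𝔈 using hrow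
  refine ⟨𝔇.image (fun δ => n • e i + δ) ∪ (Finset.range k).biUnion 𝔈,
    fun M hM hMcl hle α hα => ?_⟩
  by_cases hαk : α i < k
  · refine h𝔈 (α i) M (hM.mono (Finset.erase_subset _ _)) hMcl ?_ α ?_
    · intro δ hδ
      refine hle δ (Finset.mem_union_right _ ?_)
      exact Finset.mem_biUnion.2 ⟨α i, Finset.mem_range.2 hαk, hδ⟩
    · intro j hj
      by_cases hji : j = i
      · subst hji; simp
      · have hjR : j ∉ R := fun hjR => hj (Finset.mem_erase.2 ⟨hji, hjR⟩)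
        simp [hji, hα j hjR]
  · push Not at hαk
    have key := h𝔇 (colon ℬ R i k M) (colon_isFam h k) (colon_isCl h hS hSR hMcl k) ?_ α hα
    · intro b hb
      have h1 := (key (le_sat hN α hb)).2 0 (Sup.zero R) (by simpa using hαk) 1 h.one
      simpa using h1
    · intro δ hδ w hw
      refine ⟨hsatfam.le δ hw, fun β hβ hkβ u hu => ?_⟩
      have h1 : δ i ≤ 𝔇.sup (fun δ => δ i) := Finset.le_sup (f := fun δ : ι → ℕ => δ i) hδ
      have h2 : n ≤ β i := by omega
      obtain ⟨β', hβ'⟩ : ∃ β', β = β' + n • e i := by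
        refine ⟨β - n • e i, ?_⟩
        funext j
        by_cases hj : j = i
        · subst hj
          simp
          omega
        · simp [hj]
      have hβ'R : Sup R β' := by
        intro j hj
        have := hβ j hj
        rw [hβ'] at this
        simp only [Pi.add_apply] at this
        omega
      rw [hβ', ← h.mul] at hu
      have h3 : ∀ v ∈ ℬ (n • e i), v * w ∈ M (n • e i + δ) := by
        intro v hv
        refine hle _ (Finset.mem_union_left _ (Finset.mem_image_of_mem _ hδ)) ?_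
        refine sat_up h hiR hN (hn₀ δ w hw) ?_ v hv
        exact Finset.le_sup hδ
      refine mul_mul_mem hu h3 ?_
      intro a ha z hz
      refine hM.smul_eq hβ'R ?_ ha hz
      rw [hβ', add_assoc]

theorem gen_isFam_big (h : Grd D ℬ) (hN : IsFam ℬ R N) (hSR : insert i S ⊆ R) (j : ℕ) :
    IsFam ℬ R (gen ℬ (insert i S) (fun δ => δ i < j) N) := by
  constructor
  · exact (gen_isFam h hN.le).le
  · intro β hβ α b hb c hc
    induction hc using Submodule.span_induction with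
    | mem x hx =>
      obtain ⟨β₁, δ, h1, h2, rfl, b₁, hb₁, c₁, hc₁, rfl⟩ := hx
      set γ₁ : ι → ℕ := fun j => if j ∈ insert i S then (β + β₁) j else 0 with hγ₁
      set γ₂ : ι → ℕ := fun j => if j ∈ insert i S then 0 else (β + β₁) j with hγ₂
      have hγ : β + β₁ = γ₁ + γ₂ := by
        funext j
        by_cases hj : j ∈ insert i S
        · simp only [hγ₁, hγ₂, Pi.add_apply, if_pos hj, add_zero]
        · simp only [hγ₁, hγ₂, Pi.add_apply, if_neg hj, zero_add]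
      have hγ₁T : Sup (insert i S) γ₁ := by
        intro j hj
        simp only [hγ₁, if_neg hj]
      have hγ₂R : Sup R γ₂ := by
        intro j hj
        have hj' : j ∉ insert i S := fun h' => hj (hSR h')
        simp only [hγ₂, if_neg hj', Pi.add_apply, hβ j hj, h1 j hj', add_zero]
      have hγ₂i : γ₂ i = 0 := by simp only [hγ₂, if_pos (Finset.mem_insert_self i S)]
      have hbb : b * b₁ ∈ ℬ γ₁ * ℬ γ₂ := by
        rw [h.mul, ← hγ]
        exact h.mul_mem hb hb₁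
      rw [← mul_assoc]
      refine mul_mul_mem hbb (fun v hv => hN.smul γ₂ hγ₂R δ v hv c₁ hc₁) ?_
      intro a ha w hw
      refine Submodule.subset_span ⟨γ₁, γ₂ + δ, hγ₁T, ?_, ?_, a, ha, w, hw, rfl⟩
      · show (γ₂ + δ) i < j
        simp only [Pi.add_apply, hγ₂i, zero_add]
        exact h2
      · rw [← add_assoc, ← hγ, add_assoc]
    | zero => simp
    | add x y _ _ hx hy => rw [mul_add]; exact add_mem hx hy
    | smul k x _ hx => rw [mul_smul_comm]; exact Submodule.smul_mem _ _ hx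

theorem finOn_saturated (h : Grd D ℬ) (hS : Dom ℬ S) (hT : Dom ℬ (insert i S))
    (hSR : S ⊆ R) (hiR : i ∈ R) (hiS : i ∉ S) (hN : IsFam ℬ R N) (hcl : IsCl ℬ S N)
    (hsat : IsSat ℬ i N) (hbig : PP ℬ R (insert i S)) (hrows : PP ℬ (R.erase i) S) (κ : ι → ℕ) :
    FinOn ℬ R S N κ := by
  classical
  have hTR : insert i S ⊆ R := Finset.insert_subset hiR hSR
  have hNT : IsFam ℬ (insert i S) N := hN.mono hTR
  obtain ⟨𝔇, h𝔇⟩ := hbig N hN κ
  set μ : ℕ := 𝔇.sup (fun δ => δ i) + 1 with hμ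
  have hnltR : IsFam ℬ R (nlt ℬ S i N μ) :=
    cl_isFam h hS hSR (gen_isFam_big h hN hTR μ)
  have hnltT := nlt_isFam (i := i) h hS hN.le μ
  have hle : ∀ α, (∀ j, j ∉ R → α j = κ j) → N α ≤ nlt ℬ S i N μ α := by
    intro α hα c hc
    have h1 := h𝔇 (cl ℬ (insert i S) (nlt ℬ S i N μ)) (cl_isFam h hT hTR hnltR)
      (cl_isCl h hT hnltT) ?_ α hα hc
    · obtain ⟨_, β, hβ, a, ha, hane, hac⟩ := (mem_cl h hT hnltT).1 h1
      exact nlt_closed h hS hiS hT hNT hcl hsat hc hβ ha hane hac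
    · intro δ hδ
      refine (le_nlt h hN.le ?_).trans (le_cl h hnltT δ)
      exact Nat.lt_succ_of_le (Finset.le_sup (f := fun δ : ι → ℕ => δ i) hδ)
  have hrow : ∀ k' : ℕ, FinOn ℬ (R.erase i) S N (Function.update κ i k') := fun k' =>
    hrows N (hN.mono (Finset.erase_subset _ _)) _
  choose 𝔈 h𝔈 using hrow
  refine ⟨(Finset.range μ).biUnion 𝔈, fun M hM hMcl hleM α hα => ?_⟩
  have hlow : ∀ δ, (∀ j, j ∉ R → δ j = κ j) → δ i < μ → N δ ≤ M δ := by
    intro δ hδ hδμ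
    refine h𝔈 (δ i) M (hM.mono (Finset.erase_subset _ _)) hMcl ?_ δ ?_
    · intro δ' hδ'
      exact hleM δ' (Finset.mem_biUnion.2 ⟨δ i, Finset.mem_range.2 hδμ, hδ'⟩)
    · intro j hj
      by_cases hji : j = i
      · subst hji; simp
      · have hjR : j ∉ R := fun hjR => hj (Finset.mem_erase.2 ⟨hji, hjR⟩)
        simp [hji, hδ j hjR]
  refine (hle α hα).trans (cl_le h hS (gen_isFam' h hN.le μ) hMcl ?_)
  intro σ hσ
  refine gen_le (hM.mono hTR) ?_
  intro δ hδ hδrow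
  refine hlow δ ?_ hδ
  intro j hj
  have hjT : j ∉ insert i S := fun h' => hj (hTR h')
  have hjS : j ∉ S := fun h' => hj (hSR h')
  rw [hδrow j hjT, Pi.add_apply, hσ j hjS, zero_add, hα j hj]

theorem pp_step (h : Grd D ℬ) (hS : Dom ℬ S) (hT : Dom ℬ (insert i S))
    (hSR : S ⊆ R) (hiR : i ∈ R) (hiS : i ∉ S)
    (hbig : PP ℬ R (insert i S)) (hrows : PP ℬ (R.erase i) S) : PP ℬ R S := by
  intro N hN κ
  refine finOn_of_cl h hS hSR hN ?_
  have hN1 := cl_isFam h hS hSR hN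
  have hN1cl := cl_isCl h hS (hN.mono hSR)
  refine finOn_of_sat h hS hSR hiR hN1 hrows ?_
  exact finOn_saturated h hS hT hSR hiR hiS (sat_isFam h hiR hN1)
    (sat_isCl h hS hSR hiR hN1 hN1cl) (sat_isSat h hiR hN1) hbig hrows κ

theorem pp_all (h : Grd D ℬ) (hdom : ∀ S : Finset ι, Dom ℬ S) :
    ∀ (n : ℕ) (R S : Finset ι), S ⊆ R → (R \ S).card = n → PP ℬ R S := by
  intro n
  induction n with
  | zero =>
    intro R S hSR hcard
    rw [Finset.card_eq_zero, Finset.sdiff_eq_empty_iff_subset] at hcard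
    rw [Finset.Subset.antisymm hSR hcard]
    exact pp_base h R
  | succ n ih =>
    intro R S hSR hcard
    obtain ⟨i, hi⟩ : (R \ S).Nonempty := by
      rw [← Finset.card_pos]; omega
    rw [Finset.mem_sdiff] at hi
    refine pp_step h (hdom S) (hdom (insert i S)) hSR hi.1 hi.2 (ih R (insert i S) ?_ ?_)
      (ih (R.erase i) S ?_ ?_)
    · exact Finset.insert_subset hi.1 hSR
    · have h1 : R \ insert i S = (R \ S).erase i := by
        ext j
        simp only [Finset.mem_sdiff, Finset.mem_insert, Finset.mem_erase]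
        tauto
      rw [h1, Finset.card_erase_of_mem (Finset.mem_sdiff.2 hi)]
      omega
    · intro j hj
      refine Finset.mem_erase.2 ⟨?_, hSR hj⟩
      rintro rfl
      exact hi.2 hj
    · have h1 : R.erase i \ S = (R \ S).erase i := by
        ext j
        simp only [Finset.mem_sdiff, Finset.mem_erase]
        tauto
      rw [h1, Finset.card_erase_of_mem (Finset.mem_sdiff.2 hi)]
      omega

end Run7.h383
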